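import Pool.Agent.Helper32.Ann.Avg

/-!
# ANNULUS: monotonicity in the width

The cylinder with `N` columns is the part `x ≥ 2` of the cylinder with `N + 2` columns.  Its number of non
contractible loops is at most that of the large cylinder.  Hence the traces `tr_{V_N} (D_N ^ M)` do not decrease
under `N → N + 2`.
-/

set_option autoImplicit false

namespace H81Ann
open Ann32

/-- the configuration without the first two columns -/
def shf (t : ℕ → ℕ → Bool) : ℕ → ℕ → Bool := fun y x => t y (x + 2)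

theorem E0_par {N M : ℕ} {t : ℕ → ℕ → Bool} {a b : ℕ × ℕ} (h : E0 N M t a b) :
    (a.1 + a.2) % 2 = (b.1 + b.2) % 2 := by
  obtain ⟨x, y, hx, hy, ⟨h0, rfl, rfl⟩ | ⟨h0, rfl, rfl⟩⟩ := h <;>
  · have := up_parity hy
    simp only
    omega

theorem E1_par {N M : ℕ} {a b : ℕ × ℕ} (h : E1 N M a b) : (a.1 + a.2 + 1) % 2 = (b.1 + b.2) % 2 := by
  obtain ⟨x, y, hy, ⟨hx, rfl, rfl⟩ | ⟨hx, rfl, rfl⟩⟩ := h <;>
  · have := up_parity hy
    simp only
    omega

theorem reach_par {N M : ℕ} {t : ℕ → ℕ → Bool} {k : ℕ} {a : ℕ × ℕ} (h : Reach N M t k a) :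
    (a.1 + a.2) % 2 = 0 ∨ 1 ≤ k := by
  induction h with
  | start y hy h2 => left; simpa using h2
  | weak h ih => right; omega
  | @step0 k a b h he ih =>
    rcases ih with ih | ih
    · left
      rcases he with he | he
      · rw [← E0_par he, ih]
      · rw [E0_par he, ih]
    · exact Or.inr ih
  | step1 h he ih => right; omega

/-- every corner of the left wall is reached with at most one change -/
theorem reach_left {N M : ℕ} (t : ℕ → ℕ → Bool) {k y : ℕ} (hy : y < 2 * M) (h : y % 2 = 0 ∨ 1 ≤ k) :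
    Reach N M t k (0, y) := by
  rcases Nat.mod_two_eq_zero_or_one y with h0 | h0
  · exact (Reach.start y hy h0).mono (Nat.zero_le _)
  · have hk : 1 ≤ k := by omega
    have h1 : Reach N M t 0 (0, y - 1) := Reach.start (y - 1) (by omega) (by omega)
    refine Reach.mono (k := 1) (h1.step1 (Or.inl ⟨0, y - 1, by omega, Or.inr ⟨Nat.zero_le _, rfl, ?_⟩⟩)) hk
    have : up M (y - 1) = y := by
      unfold up
      rw [show y - 1 + 1 = y by omega]
      exact Nat.mod_eq_of_lt hy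
    rw [this]

theorem E0_shf {N M : ℕ} {t : ℕ → ℕ → Bool} {a b : ℕ × ℕ} (h : E0 (N + 2) M t a b) (ha : 2 ≤ a.1) (hb : 2 ≤ b.1) :
    E0 N M (shf t) (a.1 - 2, a.2) (b.1 - 2, b.2) := by
  obtain ⟨x, y, hx, hy, ⟨h0, rfl, rfl⟩ | ⟨h0, rfl, rfl⟩⟩ := h
  · simp only at ha hb
    refine ⟨x - 2, y, by omega, hy, Or.inl ⟨?_, rfl, ?_⟩⟩
    · show t y (x - 2 + 2) = true
      rw [show x - 2 + 2 = x by omega]
      exact h0
    · rw [show x + 1 - 2 = x - 2 + 1 by omega]
  · simp only at ha hb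
    refine ⟨x - 2, y, by omega, hy, Or.inr ⟨?_, ?_, rfl⟩⟩
    · show t y (x - 2 + 2) = false
      rw [show x - 2 + 2 = x by omega]
      exact h0
    · rw [show x + 1 - 2 = x - 2 + 1 by omega]

theorem E1_shf {N M : ℕ} {a b : ℕ × ℕ} (h : E1 (N + 2) M a b) (ha : 2 ≤ a.1) (hb : 2 ≤ b.1) :
    E1 N M (a.1 - 2, a.2) (b.1 - 2, b.2) := by
  obtain ⟨x, y, hy, ⟨hx, rfl, rfl⟩ | ⟨hx, rfl, rfl⟩⟩ := h
  · simp only at ha hb
    refine ⟨x - 2, y, hy, Or.inl ⟨by omega, rfl, ?_⟩⟩
    rw [show x + 1 - 2 = x - 2 + 1 by omega]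
  · simp only at ha hb
    exact ⟨x - 2, y, hy, Or.inr ⟨by omega, rfl, rfl⟩⟩

theorem E0_near {N M : ℕ} {t : ℕ → ℕ → Bool} {a b : ℕ × ℕ} (h : E0 N M t a b) :
    a.1 ≤ b.1 + 1 ∧ b.1 ≤ a.1 + 1 := by
  obtain ⟨x, y, hx, hy, ⟨h0, rfl, rfl⟩ | ⟨h0, rfl, rfl⟩⟩ := h <;>
  · simp only
    omega

theorem E1_near {N M : ℕ} {a b : ℕ × ℕ} (h : E1 N M a b) : a.1 ≤ b.1 + 1 ∧ b.1 ≤ a.1 + 1 := by
  obtain ⟨x, y, hy, ⟨hx, rfl, rfl⟩ | ⟨hx, rfl, rfl⟩⟩ := h <;>
  · simp only
    omega

theorem reach_shf {N M : ℕ} {t : ℕ → ℕ → Bool} {k : ℕ} {a : ℕ × ℕ} (h : Reach (N + 2) M t k a)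
    (h2 : 2 ≤ a.1) : Reach N M (shf t) k (a.1 - 2, a.2) := by
  induction h with
  | start y hy h2 => simp only at h2; omega
  | weak h ih => exact (ih h2).weak
  | @step0 k a b h he ih =>
    have hb := (h.step0 he).bound
    by_cases ha : 2 ≤ a.1
    · refine (ih ha).step0 ?_
      rcases he with he | he
      · exact Or.inl (E0_shf he ha h2)
      · exact Or.inr (E0_shf he h2 ha)
    · have hn : b.1 ≤ a.1 + 1 := by
        rcases he with he | he
        · exact (E0_near he).2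
        · exact (E0_near he).1
      have e : b.1 - 2 = 0 := by omega
      rw [e]
      refine reach_left _ hb.2 ?_
      have := reach_par (h.step0 he)
      omega
  | @step1 k a b h he ih =>
    have hb := (h.step1 he).bound
    by_cases ha : 2 ≤ a.1
    · refine (ih ha).step1 ?_
      rcases he with he | he
      · exact Or.inl (E1_shf he ha h2)
      · exact Or.inr (E1_shf he h2 ha)
    · have hn : b.1 ≤ a.1 + 1 := by
        rcases he with he | he
        · exact (E1_near he).2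
        · exact (E1_near he).1
      have e : b.1 - 2 = 0 := by omega
      rw [e]
      exact reach_left _ hb.2 (Or.inr (by omega))

/-- **the number of non contractible loops grows with the cylinder** -/
theorem Wn_shf {N M : ℕ} (hM : 0 < M) (t : ℕ → ℕ → Bool) : Wn N M (shf t) ≤ Wn (N + 2) M t := by
  rw [Wn_le_iff hM]
  obtain ⟨y, h1, h2, h3⟩ := (Wn_le_iff hM t (Wn (N + 2) M t)).1 le_rfl
  refine ⟨y, h1, h2, ?_⟩
  have := reach_shf h3 (by simp)
  simpa using this

/-- the colour of the right wall -/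
theorem reach_par' {N M : ℕ} {t : ℕ → ℕ → Bool} {k : ℕ} {a : ℕ × ℕ} (h : Reach N M t k a) :
    ∃ j, j ≤ k ∧ (a.1 + a.2) % 2 = j % 2 ∧ Reach N M t j a := by
  induction h with
  | start y hy h2 => exact ⟨0, le_rfl, by simpa using h2, Reach.start y hy h2⟩
  | weak h ih =>
    obtain ⟨j, h1, h2, h3⟩ := ih
    exact ⟨j, by omega, h2, h3⟩
  | @step0 k a b h he ih =>
    obtain ⟨j, h1, h2, h3⟩ := ih
    refine ⟨j, h1, ?_, h3.step0 he⟩
    rcases he with he | he
    · rw [← E0_par he, h2]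
    · rw [E0_par he, h2]
  | @step1 k a b h he ih =>
    obtain ⟨j, h1, h2, h3⟩ := ih
    refine ⟨j + 1, by omega, ?_, h3.step1 he⟩
    rcases he with he | he
    · have := E1_par he
      omega
    · have := E1_par he
      omega

/-- the number of loops has the parity of the width -/
theorem Wn_par {N M : ℕ} (hM : 0 < M) (t : ℕ → ℕ → Bool) : Wn N M t % 2 = N % 2 := by
  obtain ⟨y, h1, h2, h3⟩ := (Wn_le_iff hM t _).1 le_rfl
  obtain ⟨j, h4, h5, h6⟩ := reach_par' h3
  have h7 : Wn N M t ≤ j := (Wn_le_iff hM t j).2 ⟨y, h1, h2, h6⟩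
  simp only at h5
  omega

theorem Wn_le {N M : ℕ} (hM : 0 < M) (t : ℕ → ℕ → Bool) : Wn N M t ≤ N := (Wn_le_iff hM t N).2 (across_N hM t)

/-- no non contractible loop if and only if there is a crossing -/
theorem Wn_zero_iff {N M : ℕ} (hM : 0 < M) (t : ℕ → ℕ → Bool) : Wn N M t = 0 ↔ Cross N M t := by
  have key : ∀ a : ℕ × ℕ, ∀ k, Reach N M t k a → k = 0 → ∃ y, y < 2 * M ∧ y % 2 = 0 ∧
      Relation.ReflTransGen (fun a b => E0 N M t a b ∨ E0 N M t b a) (0, y) a := by
    intro a k h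
    induction h with
    | start y hy h2 => intro _; exact ⟨y, hy, h2, Relation.ReflTransGen.refl⟩
    | weak h ih => intro h; omega
    | step0 h he ih =>
      intro hk
      obtain ⟨y, h1, h2, h3⟩ := ih hk
      exact ⟨y, h1, h2, h3.tail he⟩
    | step1 h he ih => intro h; omega
  rw [← Nat.le_zero, Wn_le_iff hM]
  constructor
  · rintro ⟨y, hy, h2, h3⟩
    obtain ⟨y', h4, h5, h6⟩ := key _ _ h3 rfl
    exact ⟨y', y, h4, hy, h5, h2, h6⟩
  · rintro ⟨y, y', hy, hy', h2, h2', h3⟩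
    refine ⟨y', hy', h2', ?_⟩
    have : ∀ b, Relation.ReflTransGen (fun a b => E0 N M t a b ∨ E0 N M t b a) (0, y) b → Reach N M t 0 b := by
      intro b hb
      induction hb with
      | refl => exact Reach.start y hy h2
      | tail _ he ih => exact ih.step0 he
    exact this _ h3

end H81Ann
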