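import Pool.Agent.Helper81.Ann.PatTr
import Pool.Agent.Rect.Alg.Planar

/-!
# ANNULUS: the crossing probability is the alternating sum of the traces
-/

set_option autoImplicit false

namespace H81Ann
open Ann32 RectAlg
open Finset hiding ext

open Classical in
/-- the first defect after the strand `0` -/
noncomputable def nx (f : ℕ → ℕ) : ℕ := if h : ∃ b, 0 < b ∧ f b = b then Nat.find h else 0

theorem nx_spec {f : ℕ → ℕ} (h : ∃ b, 0 < b ∧ f b = b) :
    0 < nx f ∧ f (nx f) = nx f ∧ ∀ s, 0 < s → s < nx f → f s ≠ s := by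
  classical
  unfold nx
  rw [dif_pos h]
  refine ⟨(Nat.find_spec h).1, (Nat.find_spec h).2, ?_⟩
  intro s hs hlt hfs
  exact Nat.find_min h hlt ⟨hs, hfs⟩

theorem nx_eq {f : ℕ → ℕ} {b : ℕ} (h0 : 0 < b) (hb : f b = b) (hm : ∀ s, 0 < s → s < b → f s ≠ s) : nx f = b := by
  obtain ⟨h1, h2, h3⟩ := nx_spec ⟨b, h0, hb⟩
  rcases Nat.lt_trichotomy (nx f) b with h | h | h
  · exact absurd h2 (hm _ h1 h)
  · exact h
  · exact absurd hb (h3 b h0 h)

/-- join the strand `0` to the first defect -/
noncomputable def jn (f : ℕ → ℕ) : ℕ → ℕ := fun s => if s = 0 then nx f else if s = nx f then 0 else f s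

/-- cut the arc of the strand `0` -/
def ct (f : ℕ → ℕ) : ℕ → ℕ := fun s => if s = 0 then 0 else if s = f 0 then f 0 else f s

theorem jn_inv {f : ℕ → ℕ} (hf : Inv f) (h0 : f 0 = 0) (h : ∃ b, 0 < b ∧ f b = b) : Inv (jn f) := by
  obtain ⟨h1, h2, h3⟩ := nx_spec h
  intro s
  have a1 := hf s
  unfold jn
  grind

theorem ct_inv {f : ℕ → ℕ} (hf : Inv f) : Inv (ct f) := by
  intro s
  have a1 := hf s
  have a2 := hf 0
  unfold ct
  grind

theorem jn_pl {N : ℕ} {f : ℕ → ℕ} (hf : Pl N f) (h0 : f 0 = 0) (h : ∃ b, 0 < b ∧ f b = b) (hN : nx f < N) :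
    Pl N (jn f) := by
  obtain ⟨h1, h2, h3⟩ := nx_spec h
  refine ⟨jn_inv hf.inv h0 h, ?_, ?_⟩
  · intro s hs
    unfold jn
    rw [if_neg (by omega), if_neg (by omega), hf.sm s hs]
  · intro s t hst htf
    have a1 := hf.inv s
    have a2 := hf.inv t
    by_cases hs : s = 0
    · subst hs
      have e : jn f 0 = nx f := if_pos rfl
      rw [e] at htf ⊢
      have e2 : jn f t = f t := by
        unfold jn
        rw [if_neg (by omega), if_neg (by omega)]
      rw [e2]
      have h4 := h3 t hst htf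
      refine ⟨?_, ?_, h4⟩
      · by_contra hcon
        have : f t = 0 := by omega
        rw [this, h0] at a2
        omega
      · by_contra hcon
        have h5 : nx f < f t := by
          rcases Nat.lt_or_ge (nx f) (f t) with h6 | h6
          · exact h6
          · exfalso
            have h7 : f t = nx f := by omega
            rw [h7, h2] at a2
            omega
        exact (hf.nc t (nx f) htf h5).2.2 h2
    · by_cases hs2 : s = nx f
      · subst hs2
        have e : jn f (nx f) = 0 := by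
          unfold jn
          rw [if_neg hs, if_pos rfl]
        rw [e] at htf
        omega
      · have e : jn f s = f s := by
          unfold jn
          rw [if_neg hs, if_neg hs2]
        rw [e] at htf ⊢
        have h4 := hf.nc s t hst htf
        have ht2 : t ≠ nx f := by
          rintro rfl
          exact h4.2.2 h2
        have e2 : jn f t = f t := by
          unfold jn
          rw [if_neg (by omega), if_neg ht2]
        rw [e2]
        exact h4

theorem ct_pl {N : ℕ} {f : ℕ → ℕ} (hf : Pl N f) : Pl N (ct f) := by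
  have a0 := hf.inv 0
  refine ⟨ct_inv hf.inv, ?_, ?_⟩
  · intro s hs
    unfold ct
    have h1 := hf.sm s hs
    split_ifs with h2 h3
    · exact h2.symm
    · exact h3.symm
    · exact h1
  · intro s t hst htf
    have a1 := hf.inv s
    have a2 := hf.inv t
    by_cases hs : s = 0
    · subst hs
      have e : ct f 0 = 0 := if_pos rfl
      rw [e] at htf
      omega
    · by_cases hs2 : s = f 0
      · subst hs2
        have e : ct f (f 0) = f 0 := by
          unfold ct
          rw [if_neg hs, if_pos rfl]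
        rw [e] at htf
        omega
      · have e : ct f s = f s := by
          unfold ct
          rw [if_neg hs, if_neg hs2]
        rw [e] at htf ⊢
        have h4 := hf.nc s t hst htf
        have ht2 : t ≠ f 0 := by
          rintro rfl
          rw [a0] at h4
          omega
        have e2 : ct f t = f t := by
          unfold ct
          rw [if_neg (by omega), if_neg ht2]
        rw [e2]
        exact h4

theorem ct_jn {f : ℕ → ℕ} (h0 : f 0 = 0) (h : ∃ b, 0 < b ∧ f b = b) : ct (jn f) = f := by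
  obtain ⟨h1, h2, h3⟩ := nx_spec h
  funext s
  have e : jn f 0 = nx f := if_pos rfl
  unfold ct
  rw [e]
  split_ifs with h4 h5
  · rw [h4, h0]
  · rw [h5, h2]
  · unfold jn
    rw [if_neg h4, if_neg h5]

theorem jn_ct {N : ℕ} {f : ℕ → ℕ} (hf : Pl N f) (h0 : f 0 ≠ 0) : jn (ct f) = f ∧ nx (ct f) = f 0 ∧ ct f 0 = 0 ∧
    (∃ b, 0 < b ∧ ct f b = b) := by
  have a0 := hf.inv 0
  have e1 : ct f (f 0) = f 0 := by
    unfold ct
    rw [if_neg h0, if_pos rfl]
  have e2 : nx (ct f) = f 0 := by
    apply nx_eq (by omega) e1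
    intro s hs hlt
    unfold ct
    rw [if_neg (by omega), if_neg (by omega)]
    exact (hf.nc 0 s hs hlt).2.2
  refine ⟨?_, e2, if_pos rfl, ⟨f 0, by omega, e1⟩⟩
  funext s
  unfold jn
  rw [e2]
  split_ifs with h4 h5
  · rw [h4]
  · rw [h5, a0]
  · unfold ct
    rw [if_neg h4, if_neg h5]

/-- cutting makes two defects -/
theorem dfc_ct {N : ℕ} {f : ℕ → ℕ} (hf : Pl N f) (h0 : f 0 ≠ 0) : dfc N (ct f) = dfc N f + 2 := by
  have a0 := hf.inv 0
  have hN : f 0 < N := by
    by_contra hcon
    have := hf.sm (f 0) (by omega)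
    omega
  have h : (range N).filter (fun s => ct f s = s) =
      insert 0 (insert (f 0) ((range N).filter fun s => f s = s)) := by
    ext s
    rw [mem_filter, mem_insert, mem_insert, mem_filter, mem_range]
    unfold ct
    constructor
    · rintro ⟨h1, h2⟩
      split_ifs at h2 with h3 h4
      · exact Or.inl h3
      · exact Or.inr (Or.inl h4)
      · exact Or.inr (Or.inr ⟨h1, h2⟩)
    · rintro (rfl | rfl | ⟨h1, h2⟩)
      · exact ⟨by omega, if_pos rfl⟩
      · exact ⟨hN, by rw [if_neg h0, if_pos rfl]⟩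
      · refine ⟨h1, ?_⟩
        split_ifs with h3 h4
        · exact h3.symm
        · exact h4.symm
        · exact h2
  unfold dfc
  rw [h, card_insert_of_notMem, card_insert_of_notMem]
  · rw [mem_filter]
    rintro ⟨_, h1⟩
    omega
  · rw [mem_insert, mem_filter]
    rintro (h1 | ⟨_, h1⟩)
    · exact h0 h1.symm
    · exact h0 h1

/-- patterns whose strand `0` is a defect -/
noncomputable def PA (N l : ℕ) : Finset Pat := (Pat.PN N l).filter fun f => f.fn 0 = 0
/-- patterns whose strand `0` is in an arc -/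
noncomputable def PB (N l : ℕ) : Finset Pat := (Pat.PN N l).filter fun f => f.fn 0 ≠ 0

theorem card_PA_PB (N l : ℕ) : (Pat.PN N l).card = (PA N l).card + (PB N l).card :=
  (card_filter_add_card_filter_not (s := Pat.PN N l) (p := fun f => f.fn 0 = 0)).symm

theorem exists_def {N l : ℕ} {f : ℕ → ℕ} (hl : dfc N f = l + 2) : ∃ b, 0 < b ∧ b < N ∧ f b = b := by
  by_contra hcon
  push Not at hcon
  have : (range N).filter (fun s => f s = s) ⊆ {0} := by
    intro s hs
    rw [mem_filter, mem_range] at hs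
    rw [mem_singleton]
    by_contra h
    exact hcon s (by omega) hs.1 hs.2
  have h2 := card_le_card this
  rw [card_singleton] at h2
  unfold dfc at hl
  omega

theorem card_PA (N l : ℕ) : (PA N (l + 2)).card = (PB N l).card := by
  classical
  have key : ∀ f ∈ PA N (l + 2), Pl N f.fn ∧ f.fn 0 = 0 ∧ (∃ b, 0 < b ∧ f.fn b = b) ∧ nx f.fn < N ∧
      dfc N f.fn = l + 2 := by
    intro f hf
    unfold PA at hf
    rw [mem_filter, Pat.mem_PN'] at hf
    obtain ⟨⟨h1, h2⟩, h3⟩ := hf
    obtain ⟨b, hb, hbN, hfb⟩ := exists_def h2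
    refine ⟨h1, h3, ⟨b, hb, hfb⟩, ?_, h2⟩
    obtain ⟨h4, h5, h6⟩ := nx_spec ⟨b, hb, hfb⟩
    by_contra hcon
    exact h6 b hb (by omega) hfb
  refine card_bij' (i := fun f _ => if h : Inv (jn f.fn) then (⟨jn f.fn, h⟩ : Pat) else f)
    (j := fun f _ => (⟨ct f.fn, ct_inv f.inv⟩ : Pat)) ?_ ?_ ?_ ?_
  · intro f hf
    obtain ⟨h1, h2, h3, h4, h5⟩ := key f hf
    have hi := jn_inv f.inv h2 h3
    have hp := jn_pl h1 h2 h3 h4
    have hne : jn f.fn 0 ≠ 0 := by
      have : jn f.fn 0 = nx f.fn := if_pos rfl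
      rw [this]
      exact (nx_spec h3).1.ne'
    rw [dif_pos hi]
    unfold PB
    rw [mem_filter, Pat.mem_PN']
    refine ⟨⟨hp, ?_⟩, hne⟩
    have h6 := dfc_ct hp hne
    rw [ct_jn h2 h3] at h6
    show dfc N (jn f.fn) = l
    omega
  · intro f hf
    unfold PB at hf
    rw [mem_filter, Pat.mem_PN'] at hf
    obtain ⟨⟨h1, h2⟩, h3⟩ := hf
    unfold PA
    rw [mem_filter, Pat.mem_PN']
    have h0 : ct f.fn 0 = 0 := if_pos rfl
    refine ⟨⟨ct_pl h1, ?_⟩, h0⟩
    show dfc N (ct f.fn) = l + 2
    rw [dfc_ct h1 h3, h2]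
  · intro f hf
    obtain ⟨h1, h2, h3, h4, h5⟩ := key f hf
    apply Pat.ext_fn
    simp only
    rw [dif_pos (jn_inv f.inv h2 h3)]
    exact ct_jn h2 h3
  · intro f hf
    unfold PB at hf
    rw [mem_filter, Pat.mem_PN'] at hf
    obtain ⟨⟨h1, h2⟩, h3⟩ := hf
    obtain ⟨h4, h5, h6, h7⟩ := jn_ct h1 h3
    apply Pat.ext_fn
    simp only
    rw [dif_pos (by rw [h4]; exact f.inv)]
    exact h4

theorem PN_empty {N l : ℕ} (h : N < l) : (Pat.PN N l).card = 0 := by
  rw [card_eq_zero, eq_empty_iff_forall_notMem]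
  intro f hf
  have := (Pat.mem_PN.1 hf).le
  omega

theorem card_PA_zero (N : ℕ) : (PA N 0).card = if N = 0 then 1 else 0 := by
  split_ifs with h
  · subst h
    have h1 : PA 0 0 = {Pat.vac} := by
      ext f
      unfold PA
      rw [mem_filter, Pat.mem_PN', mem_singleton]
      constructor
      · rintro ⟨⟨h1, _⟩, _⟩
        exact Pat.ext_fn (funext fun s => h1.sm s (Nat.zero_le _))
      · rintro rfl
        exact ⟨⟨pl_id 0, dfc_id 0⟩, rfl⟩
    rw [h1, card_singleton]
  · rw [card_eq_zero, eq_empty_iff_forall_notMem]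
    intro f hf
    unfold PA at hf
    rw [mem_filter, Pat.mem_PN'] at hf
    obtain ⟨⟨h1, h2⟩, h3⟩ := hf
    unfold dfc at h2
    rw [card_eq_zero, eq_empty_iff_forall_notMem] at h2
    exact h2 0 (by
      rw [mem_filter, mem_range]
      exact ⟨by omega, h3⟩)

/-- **the alternating sum of the numbers of patterns** -/
theorem alt_sum {N L : ℕ} (h : N ≤ L) :
    ∑ j ∈ range (L + 1), (-1 : ℝ) ^ j * ((Pat.PN N (2 * j)).card : ℝ) = if N = 0 then 1 else 0 := by
  have h1 : ∀ n, ∑ j ∈ range n, (-1 : ℝ) ^ j * ((Pat.PN N (2 * j)).card : ℝ) =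
      ((PA N 0).card : ℝ) - (-1) ^ n * ((PA N (2 * n)).card : ℝ) := by
    intro n
    induction n with
    | zero => simp
    | succ n ih =>
      rw [sum_range_succ, ih, card_PA_PB, ← card_PA, show 2 * (n + 1) = 2 * n + 2 by ring]
      push_cast
      rw [pow_succ]
      ring
  have h2 : (PA N (2 * (L + 1))).card = 0 := by
    have h3 := PN_empty (N := N) (l := 2 * (L + 1)) (by omega)
    have h4 := card_PA_PB N (2 * (L + 1))
    omega
  rw [h1, h2, card_PA_zero]
  split_ifs <;> simp

open Classical in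
/-- the crossing probability of the cylinder -/
noncomputable def pCross (N M : ℕ) : ℝ := Ex N M fun ω => if Cross N M (ext ω) then 1 else 0

/-- **the crossing probability is the alternating sum of the traces** -/
theorem pCross_eq (N : ℕ) {M L : ℕ} (hM : 0 < M) (hL : N ≤ L) :
    pCross N M = ∑ j ∈ range (L + 1), (-1 : ℝ) ^ j * trW N M (2 * j) := by
  classical
  have h1 : ∀ ω : Cfg N M, (if Cross N M (ext ω) then (1 : ℝ) else 0) =
      ∑ j ∈ range (L + 1), (-1 : ℝ) ^ j * ((Pat.PN (Wn N M (ext ω)) (2 * j)).card : ℝ) := by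
    intro ω
    rw [alt_sum ((Wn_le hM _).trans hL)]
    by_cases h : Cross N M (ext ω)
    · rw [if_pos h, if_pos ((Wn_zero_iff hM _).2 h)]
    · rw [if_neg h, if_neg (fun h' => h ((Wn_zero_iff hM _).1 h'))]
  unfold pCross Ex
  simp only [trW_eq N _ hM]
  unfold Ex
  rw [sum_congr rfl fun ω _ => h1 ω, sum_comm, sum_div]
  refine sum_congr rfl fun j _ => ?_
  rw [← mul_sum, mul_div_assoc]

end H81Ann
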