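import Pool.Agent.Helper81.Ann.Alt

/-!
# ANNULUS: the numbers of patterns, and the generating function of the number of loops

`card (PN (N+1) (l+1)) = card (PN N l) + card (PN N (l+2))`, `card (PN (N+1) 0) = card (PN N 1)`; hence
`w ^ N = ∑ U_l(w) card (PN N l)`, with `U_0 = 1`, `U_1 = w`, `U_(l+2) = w U_(l+1) - U_l`.
-/

set_option autoImplicit false

namespace H81Ann
open Ann32 RectAlg
open Finset hiding ext

/-! ### the last strand -/

/-- the last defect below `N` -/
noncomputable def lst (N : ℕ) (g : ℕ → ℕ) : ℕ := ((range N).filter fun s => g s = s).sup id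

theorem lst_spec {N : ℕ} {g : ℕ → ℕ} (h : ∃ b, b < N ∧ g b = b) :
    lst N g < N ∧ g (lst N g) = lst N g ∧ ∀ s, lst N g < s → s < N → g s ≠ s := by
  obtain ⟨b, hb, hgb⟩ := h
  have hne : ((range N).filter fun s => g s = s).Nonempty :=
    ⟨b, mem_filter.2 ⟨mem_range.2 hb, hgb⟩⟩
  obtain ⟨a, ha, hsup⟩ := exists_mem_eq_sup _ hne id
  have h1 : lst N g = a := hsup
  rw [mem_filter, mem_range] at ha
  refine ⟨by rw [h1]; exact ha.1, by rw [h1]; exact ha.2, ?_⟩
  intro s hs hsN hgs
  have h2 : s ≤ lst N g := le_sup (f := id) (mem_filter.2 ⟨mem_range.2 hsN, hgs⟩)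
  omega

theorem lst_eq {N a : ℕ} {g : ℕ → ℕ} (ha : a < N) (hga : g a = a) (hm : ∀ s, a < s → s < N → g s ≠ s) :
    lst N g = a := by
  obtain ⟨h1, h2, h3⟩ := lst_spec ⟨a, ha, hga⟩
  rcases Nat.lt_trichotomy (lst N g) a with h | h | h
  · exact absurd hga (h3 a h ha)
  · exact h
  · exact absurd h2 (hm _ h h1)

/-- join the last defect to the new strand `N` -/
noncomputable def jl (N : ℕ) (g : ℕ → ℕ) : ℕ → ℕ := fun s => if s = N then lst N g else if s = lst N g then N else g s

/-- cut the arc of the strand `N` -/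
def cl' (N : ℕ) (f : ℕ → ℕ) : ℕ → ℕ := fun s => if s = N then N else if s = f N then f N else f s

theorem cl'_inv {N : ℕ} {f : ℕ → ℕ} (hf : Inv f) : Inv (cl' N f) := by
  intro s
  have a1 := hf s
  have a2 := hf N
  unfold cl'
  grind

theorem jl_inv {N : ℕ} {g : ℕ → ℕ} (hg : Pl N g) (h : ∃ b, b < N ∧ g b = b) : Inv (jl N g) := by
  obtain ⟨h1, h2, h3⟩ := lst_spec h
  intro s
  have a1 := hg.inv s
  have a2 := hg.sm N le_rfl
  unfold jl
  grind

theorem pl_lt {N : ℕ} {g : ℕ → ℕ} (hg : Pl N g) {s : ℕ} (hs : s < N) : g s < N := by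
  by_contra hcon
  have h1 := hg.sm (g s) (by omega)
  have h2 := hg.inv s
  omega

theorem jl_pl {N : ℕ} {g : ℕ → ℕ} (hg : Pl N g) (h : ∃ b, b < N ∧ g b = b) : Pl (N + 1) (jl N g) := by
  obtain ⟨h1, h2, h3⟩ := lst_spec h
  refine ⟨jl_inv hg h, ?_, ?_⟩
  · intro s hs
    unfold jl
    rw [if_neg (by omega), if_neg (by omega), hg.sm s (by omega)]
  · intro s t hst htf
    by_cases hsN : N < s
    · exfalso
      unfold jl at htf
      rw [if_neg (by omega), if_neg (by omega), hg.sm s (by omega)] at htf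
      omega
    by_cases hsN' : s = N
    · subst hsN'
      exfalso
      unfold jl at htf
      rw [if_pos rfl] at htf
      omega
    have hs : s < N := by omega
    by_cases hs2 : s = lst N g
    · have e : jl N g s = N := by
        unfold jl
        rw [if_neg hsN', if_pos hs2]
      rw [e] at htf ⊢
      have e2 : jl N g t = g t := by
        unfold jl
        rw [if_neg (by omega), if_neg (by omega)]
      rw [e2]
      have h4 := h3 t (by omega) htf
      have h5 := pl_lt hg htf
      refine ⟨?_, h5, h4⟩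
      by_contra hcon
      have h6 : g t ≠ lst N g := by
        intro h7
        have h8 := hg.inv t
        rw [h7, h2] at h8
        omega
      have h7 := hg.nc (g t) (lst N g) (by omega) (by rw [hg.inv t]; omega)
      exact h7.2.2 h2
    · have e : jl N g s = g s := by
        unfold jl
        rw [if_neg hsN', if_neg hs2]
      rw [e] at htf ⊢
      have h4 := hg.nc s t hst htf
      have h5 := pl_lt hg hs
      have ht2 : t ≠ lst N g := by
        rintro rfl
        exact h4.2.2 h2
      have e2 : jl N g t = g t := by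
        unfold jl
        rw [if_neg (by omega), if_neg ht2]
      rw [e2]
      exact h4

theorem cl'_pl {N : ℕ} {f : ℕ → ℕ} (hf : Pl (N + 1) f) : Pl N (cl' N f) := by
  have a0 := hf.inv N
  have hfN : f N < N + 1 := pl_lt hf (by omega)
  refine ⟨cl'_inv hf.inv, ?_, ?_⟩
  · intro s hs
    unfold cl'
    split_ifs with h2 h3
    · exact h2.symm
    · exact h3.symm
    · exact hf.sm s (by omega)
  · intro s t hst htf
    have hs1 : s ≠ N := by
      rintro rfl
      unfold cl' at htf
      rw [if_pos rfl] at htf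
      omega
    have hs2 : s ≠ f N := by
      rintro rfl
      unfold cl' at htf
      rw [if_neg hs1, if_pos rfl] at htf
      omega
    have e : cl' N f s = f s := by
      unfold cl'
      rw [if_neg hs1, if_neg hs2]
    rw [e] at htf ⊢
    have h4 := hf.nc s t hst htf
    have hsN : s < N + 1 := by
      by_contra hcon
      rw [hf.sm s (by omega)] at htf
      omega
    have h5 : f s < N + 1 := pl_lt hf hsN
    have h6 : f s ≠ N := by
      intro h7
      apply hs2
      rw [← h7, hf.inv]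
    have ht2 : t ≠ f N := by
      rintro rfl
      rw [a0] at h4
      omega
    have e2 : cl' N f t = f t := by
      unfold cl'
      rw [if_neg (by omega), if_neg ht2]
    rw [e2]
    exact h4

theorem cl'_jl {N : ℕ} {g : ℕ → ℕ} (hg : Pl N g) (h : ∃ b, b < N ∧ g b = b) : cl' N (jl N g) = g := by
  obtain ⟨h1, h2, h3⟩ := lst_spec h
  have e : jl N g N = lst N g := if_pos rfl
  funext s
  unfold cl'
  rw [e]
  split_ifs with h4 h5
  · rw [h4, hg.sm N le_rfl]
  · rw [h5, h2]
  · unfold jl
    rw [if_neg h4, if_neg h5]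

theorem jl_cl' {N : ℕ} {f : ℕ → ℕ} (hf : Pl (N + 1) f) (h0 : f N ≠ N) : jl N (cl' N f) = f ∧
    ∃ b, b < N ∧ cl' N f b = b := by
  have a0 := hf.inv N
  have hfN : f N < N + 1 := pl_lt hf (by omega)
  have hfN' : f N < N := by omega
  have e1 : cl' N f (f N) = f N := by
    unfold cl'
    rw [if_neg h0, if_pos rfl]
  have e2 : lst N (cl' N f) = f N := by
    apply lst_eq hfN' e1
    intro s hs hlt
    unfold cl'
    rw [if_neg (by omega), if_neg (by omega)]
    exact (hf.nc (f N) s hs (by rw [a0]; exact hlt)).2.2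
  refine ⟨?_, f N, hfN', e1⟩
  funext s
  unfold jl
  rw [e2]
  split_ifs with h4 h5
  · rw [h4]
  · rw [h5, a0]
  · unfold cl'
    rw [if_neg h4, if_neg h5]

theorem dfc_cl' {N : ℕ} {f : ℕ → ℕ} (hf : Pl (N + 1) f) (h0 : f N ≠ N) :
    dfc N (cl' N f) = dfc (N + 1) f + 1 := by
  have a0 := hf.inv N
  have hfN : f N < N + 1 := pl_lt hf (by omega)
  have h : (range N).filter (fun s => cl' N f s = s) =
      insert (f N) ((range (N + 1)).filter fun s => f s = s) := by
    ext s
    rw [mem_filter, mem_insert, mem_filter, mem_range, mem_range]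
    unfold cl'
    constructor
    · rintro ⟨h1, h2⟩
      rw [if_neg (by omega)] at h2
      split_ifs at h2 with h4
      · exact Or.inl h4
      · exact Or.inr ⟨by omega, h2⟩
    · rintro (rfl | ⟨h1, h2⟩)
      · exact ⟨by omega, by rw [if_neg h0, if_pos rfl]⟩
      · have h3 : s ≠ N := by
          rintro rfl
          exact h0 h2
        refine ⟨by omega, ?_⟩
        rw [if_neg h3]
        split_ifs with h4
        · exact h4.symm
        · exact h2
  unfold dfc
  rw [h, card_insert_of_notMem]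
  rw [mem_filter]
  rintro ⟨_, h1⟩
  rw [a0] at h1
  exact h0 h1.symm

theorem pl_succ {N : ℕ} {f : ℕ → ℕ} : Pl N f ↔ Pl (N + 1) f ∧ f N = N := by
  constructor
  · intro h
    exact ⟨⟨h.inv, fun s hs => h.sm s (by omega), h.nc⟩, h.sm N le_rfl⟩
  · rintro ⟨h, h1⟩
    refine ⟨h.inv, fun s hs => ?_, h.nc⟩
    rcases Nat.lt_or_ge N s with h2 | h2
    · exact h.sm s (by omega)
    · have : s = N := by omega
      rw [this, h1]

theorem dfc_succ {N : ℕ} {f : ℕ → ℕ} : dfc (N + 1) f = dfc N f + if f N = N then 1 else 0 := by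
  unfold dfc
  rw [range_add_one, filter_insert]
  split_ifs with h
  · rw [card_insert_of_notMem]
    simp
  · rfl

theorem card_PN_split (N l : ℕ) : (Pat.PN (N + 1) l).card =
    ((Pat.PN (N + 1) l).filter fun f => f.fn N = N).card + ((Pat.PN (N + 1) l).filter fun f => f.fn N ≠ N).card :=
  (card_filter_add_card_filter_not (s := Pat.PN (N + 1) l) (p := fun f => f.fn N = N)).symm

theorem card_last_def (N l : ℕ) : ((Pat.PN (N + 1) (l + 1)).filter fun f => f.fn N = N).card =
    (Pat.PN N l).card := by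
  congr 1
  ext f
  rw [mem_filter, Pat.mem_PN', Pat.mem_PN', pl_succ (N := N), dfc_succ]
  constructor
  · rintro ⟨⟨h1, h2⟩, h3⟩
    rw [if_pos h3] at h2
    exact ⟨⟨h1, h3⟩, by omega⟩
  · rintro ⟨⟨h1, h3⟩, h2⟩
    rw [if_pos h3]
    exact ⟨⟨h1, by omega⟩, h3⟩

theorem card_last_def0 (N : ℕ) : ((Pat.PN (N + 1) 0).filter fun f => f.fn N = N).card = 0 := by
  rw [card_eq_zero, eq_empty_iff_forall_notMem]
  intro f hf
  rw [mem_filter, Pat.mem_PN', dfc_succ] at hf
  obtain ⟨⟨h1, h2⟩, h3⟩ := hf
  rw [if_pos h3] at h2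
  omega

theorem exists_def' {N l : ℕ} {f : ℕ → ℕ} (hl : dfc N f = l + 1) : ∃ b, b < N ∧ f b = b := by
  by_contra hcon
  push Not at hcon
  have : (range N).filter (fun s => f s = s) = ∅ := by
    rw [eq_empty_iff_forall_notMem]
    intro s hs
    rw [mem_filter, mem_range] at hs
    exact hcon s hs.1 hs.2
  unfold dfc at hl
  rw [this, card_empty] at hl
  omega

theorem card_last_arc (N l : ℕ) : ((Pat.PN (N + 1) l).filter fun f => f.fn N ≠ N).card =
    (Pat.PN N (l + 1)).card := by
  classical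
  refine card_bij' (i := fun f _ => (⟨cl' N f.fn, cl'_inv f.inv⟩ : Pat))
    (j := fun f _ => if h : Inv (jl N f.fn) then (⟨jl N f.fn, h⟩ : Pat) else f) ?_ ?_ ?_ ?_
  · intro f hf
    rw [mem_filter, Pat.mem_PN'] at hf
    obtain ⟨⟨h1, h2⟩, h3⟩ := hf
    rw [Pat.mem_PN']
    refine ⟨cl'_pl h1, ?_⟩
    show dfc N (cl' N f.fn) = l + 1
    rw [dfc_cl' h1 h3, h2]
  · intro f hf
    rw [Pat.mem_PN'] at hf
    obtain ⟨h1, h2⟩ := hf
    have h3 := exists_def' h2
    have hi := jl_inv h1 h3
    have hp := jl_pl h1 h3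
    have hne : jl N f.fn N ≠ N := by
      have : jl N f.fn N = lst N f.fn := if_pos rfl
      rw [this]
      exact (lst_spec h3).1.ne
    rw [dif_pos hi, mem_filter, Pat.mem_PN']
    refine ⟨⟨hp, ?_⟩, hne⟩
    have h6 := dfc_cl' hp hne
    rw [cl'_jl h1 h3] at h6
    show dfc (N + 1) (jl N f.fn) = l
    omega
  · intro f hf
    rw [mem_filter, Pat.mem_PN'] at hf
    obtain ⟨⟨h1, h2⟩, h3⟩ := hf
    obtain ⟨h4, h5⟩ := jl_cl' h1 h3
    apply Pat.ext_fn
    simp only
    rw [dif_pos (by rw [h4]; exact f.inv)]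
    exact h4
  · intro f hf
    rw [Pat.mem_PN'] at hf
    obtain ⟨h1, h2⟩ := hf
    have h3 := exists_def' h2
    apply Pat.ext_fn
    simp only
    rw [dif_pos (jl_inv h1 h3)]
    exact cl'_jl h1 h3

theorem card_PN_succ (N l : ℕ) : (Pat.PN (N + 1) (l + 1)).card = (Pat.PN N l).card + (Pat.PN N (l + 2)).card := by
  rw [card_PN_split, card_last_def, card_last_arc]

theorem card_PN_succ0 (N : ℕ) : (Pat.PN (N + 1) 0).card = (Pat.PN N 1).card := by
  rw [card_PN_split, card_last_def0, card_last_arc, zero_add]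

theorem card_PN_zero (l : ℕ) : (Pat.PN 0 l).card = if l = 0 then 1 else 0 := by
  split_ifs with h
  · subst h
    have h1 := card_PA_PB 0 0
    have h2 := card_PA_zero 0
    have h3 := card_PA 0 0
    have h4 := PN_empty (N := 0) (l := 2) (by omega)
    have h5 := card_PA_PB 0 2
    rw [if_pos rfl] at h2
    rw [zero_add] at h3
    omega
  · exact PN_empty (by omega)

/-! ### the generating function -/

/-- `U_l`, with `U_0 = 1`, `U_1 = w`, `U_(l+2) = w U_(l+1) - U_l` -/
def Uc (w : ℝ) : ℕ → ℝ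
  | 0 => 1
  | 1 => w
  | l + 2 => w * Uc w (l + 1) - Uc w l

theorem pow_eq_sum (w : ℝ) : ∀ (N L : ℕ), N ≤ L →
    ∑ l ∈ range (L + 1), Uc w l * ((Pat.PN N l).card : ℝ) = w ^ N := by
  intro N
  induction N with
  | zero =>
    intro L _
    rw [sum_eq_single 0]
    · rw [card_PN_zero, if_pos rfl]
      simp [Uc]
    · intro l _ hl
      rw [card_PN_zero, if_neg hl]
      simp
    · intro h
      simp at h
  | succ N ih =>
    intro L hL
    obtain ⟨L, rfl⟩ : ∃ L', L = L' + 1 := ⟨L - 1, by omega⟩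
    have h1 : ∀ n, ∑ l ∈ range (n + 1), Uc w l * ((Pat.PN (N + 1) l).card : ℝ) =
        w * ∑ l ∈ range n, Uc w l * ((Pat.PN N l).card : ℝ) +
          Uc w n * ((Pat.PN N (n + 1)).card : ℝ) + (if n = 0 then 0 else Uc w (n - 1) * ((Pat.PN N n).card : ℝ)) := by
      intro n
      induction n with
      | zero =>
        simp [card_PN_succ0, Uc]
      | succ n ih2 =>
        rw [sum_range_succ, ih2, card_PN_succ, sum_range_succ _ n]
        cases n with
        | zero =>
          simp [Uc]
          ring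
        | succ m =>
          rw [if_neg (by omega), if_neg (by omega)]
          have e : Uc w (m + 1 + 1) = w * Uc w (m + 1) - Uc w m := rfl
          simp only [Nat.add_sub_cancel]
          rw [e]
          push_cast
          ring
    rw [h1 (L + 1), if_neg (by omega), PN_empty (N := N) (l := L + 1 + 1) (by omega),
      PN_empty (N := N) (l := L + 1) (by omega), ih L (by omega)]
    rw [pow_succ]
    simp
    ring

/-- the generating function of the number of non contractible loops -/
noncomputable def ZW (N M : ℕ) (w : ℝ) : ℝ := Ex N M fun ω => w ^ Wn N M (ext ω)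

/-- **the generating function is a combination of the traces** -/
theorem ZW_eq (N : ℕ) {M L : ℕ} (hM : 0 < M) (hL : N ≤ L) (w : ℝ) :
    ZW N M w = ∑ l ∈ range (L + 1), Uc w l * trW N M l := by
  have h1 : ∀ ω : Cfg N M, w ^ Wn N M (ext ω) =
      ∑ l ∈ range (L + 1), Uc w l * ((Pat.PN (Wn N M (ext ω)) l).card : ℝ) := fun ω =>
    (pow_eq_sum w _ L ((Wn_le hM _).trans hL)).symm
  unfold ZW Ex
  simp only [trW_eq N _ hM]
  unfold Ex
  rw [sum_congr rfl fun ω _ => h1 ω, sum_comm, sum_div]
  refine sum_congr rfl fun j _ => ?_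
  rw [← mul_sum, mul_div_assoc]

theorem ZW_one (N M : ℕ) : ZW N M 1 = 1 := by
  unfold ZW Ex
  simp only [one_pow, sum_const, card_univ, nsmul_eq_mul, mul_one]
  rw [div_eq_one_iff_eq (by positivity)]
  simp only [Fintype.card_fun, Fintype.card_fin, Fintype.card_bool]
  push_cast
  rw [← pow_mul, mul_comm N]
  
theorem pCross_eq_ZW (N : ℕ) {M : ℕ} (hM : 0 < M) : pCross N M = ZW N M 0 := by
  classical
  unfold pCross ZW
  congr 1
  funext ω
  by_cases h : Cross N M (ext ω)
  · rw [if_pos h, (Wn_zero_iff hM _).2 h, pow_zero]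
  · rw [if_neg h, zero_pow (fun h' => h ((Wn_zero_iff hM _).1 h'))]

end H81Ann
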