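import Pool.Agent.Helper81.Ann.Bound

/-!
# ANNULUS (A7): the percolation input `Bd` from the disjoint arms
-/

set_option autoImplicit false

namespace H81Ann
open Ann32 RectAlg Filter Topology
open Finset hiding ext
open Pool.Agent.Helper69.RSW (P P_mono P_congr P_nonneg P_le_one P_or_le Up Dep P_union P_restrict P_false)

theorem exists_pow_small {θ : ℝ} (h0 : 0 ≤ θ) (h1 : θ < 1) {c ε : ℝ} (hε : 0 < ε) :
    ∃ L : ℕ, 1 ≤ L ∧ c * θ ^ L ≤ ε := by
  have h2 : Tendsto (fun L : ℕ => c * θ ^ L) atTop (𝓝 (c * 0)) :=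
    (tendsto_pow_atTop_nhds_zero_of_lt_one h0 h1).const_mul c
  rw [mul_zero] at h2
  obtain ⟨L, hL⟩ := ((h2.eventually (ge_mem_nhds hε)).and (eventually_ge_atTop 1)).exists
  exact ⟨L, hL.2, hL.1⟩

theorem summable_poly_geom (p : ℕ) : Summable fun j : ℕ => ((j : ℝ) + 1) ^ p * (1 / 2) ^ j := by
  have h1 : Summable fun j : ℕ => ((j : ℝ)) ^ p * (1 / 2 : ℝ) ^ j :=
    summable_pow_mul_geometric_of_norm_lt_one p (by norm_num)
  have h2 := (summable_nat_add_iff 1).2 h1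
  refine (h2.mul_left 2).congr fun j => ?_
  push_cast
  rw [pow_succ]
  ring

/-- **(B1)** -/
theorem bdd_of (HA : DisjArms) (ρ : ℝ) (hρ : 1 ≤ ρ) (x : ℝ) (hx : 0 < x) :
    ∃ C : ℝ, ∃ n0 : ℕ, ∀ n M : ℕ, n0 ≤ n → x * (2 * n) ≤ M → ZW (2 * n) M ρ ≤ C := by
  obtain ⟨θ, h0, h1, hθ⟩ := arm_le
  obtain ⟨L, hL1, hL⟩ := exists_pow_small h0 h1 (c := ρ ^ 2) (ε := 1 / 2) (by norm_num)
  obtain ⟨k, hk⟩ := exists_nat_ge (max 1 (L / x))
  have hk1 : 1 ≤ k := by exact_mod_cast (le_max_left _ _).trans hk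
  have hk2 : (L : ℝ) ≤ x * k := by
    have := (le_max_right _ _).trans hk
    rwa [div_le_iff₀ hx, mul_comm] at this
  obtain ⟨n1, hn1⟩ := exists_nat_ge (1 / x)
  refine ⟨∑' j : ℕ, ((j : ℝ) + 1) ^ ((2 * k + 1) * L) * (1 / 2) ^ j, max n1 (max k 1), fun n M hn hM => ?_⟩
  have hn1' : n1 ≤ n := (le_max_left _ _).trans hn
  have hnk : k ≤ n := ((le_max_left _ _).trans (le_max_right _ _)).trans hn
  have hn1'' : 1 ≤ n := ((le_max_right _ _).trans (le_max_right _ _)).trans hn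
  have hxn : 1 ≤ x * (2 * n) := by
    have h2 : 1 / x ≤ n := hn1.trans (by exact_mod_cast hn1')
    rw [div_le_iff₀ hx] at h2
    have h3 : (0 : ℝ) ≤ n := Nat.cast_nonneg _
    nlinarith
  have hMpos : 0 < M := by
    have : (0 : ℝ) < M := by linarith
    exact_mod_cast this
  set h : ℕ := 2 * n / k with hh
  have hh0 : 0 < h := Nat.div_pos (by omega) (by omega)
  have hhk : h * k ≤ 2 * n := Nat.div_mul_le_self _ _
  have hhk2 : 2 * n ≤ 2 * k * h := by
    have h3 := Nat.div_add_mod (2 * n) k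
    have h4 := Nat.mod_lt (2 * n) (show 0 < k by omega)
    have h5 : k * 1 ≤ k * h := Nat.mul_le_mul_left k hh0
    have h6 : k * (2 * n / k) = k * h := rfl
    have h7 : 2 * k * h = k * h + k * h := by ring
    omega
  have hLh : L * h + 1 ≤ 2 * M := by
    have h3 : (L : ℝ) * h ≤ x * (2 * n) := by
      have h4 : (h : ℝ) * k ≤ 2 * n := by exact_mod_cast hhk
      have h5 : (0 : ℝ) ≤ h := Nat.cast_nonneg _
      calc (L : ℝ) * h ≤ (x * k) * h := mul_le_mul_of_nonneg_right hk2 h5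
        _ = x * (h * k) := by ring
        _ ≤ x * (2 * n) := mul_le_mul_of_nonneg_left h4 hx.le
    have h6 : ((L * h + 1 : ℕ) : ℝ) ≤ ((2 * M : ℕ) : ℝ) := by
      push_cast
      linarith
    exact_mod_cast h6
  -- the tail
  have htail : ∀ j, P (tl (2 * n) M) (fun S => j ≤ Wn (2 * n) M (tS S) / 2) ≤
      (((j : ℝ) + 1) ^ (2 * k + 1) * θ ^ j) ^ L := by
    intro j
    refine tail_slabs HA hMpos hh0 hLh (by positivity) fun y0 => ?_
    refine le_trans (P_mono fun S _ hS => MM_mono (fun T hT => Arm_split hhk2 hh0 hT) hS) ?_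
    refine P_multi _ (fun b => up_Arm 1 _ _ _ _) h0 (2 * k + 1) (fun b _ => ?_) j
    refine hθ 1 y0 (y0 + h) (b * h) (b * h + h) _ (by norm_num) (by omega) (by omega) ?_
    rintro ⟨y, z⟩ hp
    rw [mem_sl] at hp
    exact hp.1
  have e1 : ZW (2 * n) M ρ = Full.Perc.Ex (tl (2 * n) M) (fun S => (ρ ^ 2) ^ (Wn (2 * n) M (tS S) / 2)) := by
    unfold ZW
    rw [Ex_tile hMpos fun w => ρ ^ w]
    refine Full.Perc.Ex_congr fun S _ => ?_
    rw [← pow_mul]
    congr 1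
    have := Wn_par (N := 2 * n) hMpos (tS S)
    omega
  rw [e1]
  refine (Ex_le_tail (tl (2 * n) M) (fun S => Wn (2 * n) M (tS S) / 2) (g := fun j => (ρ ^ 2) ^ j)
    (fun j => by positivity) (K := n) (fun S _ => ?_) htail).trans ?_
  · have := Wn_le (N := 2 * n) hMpos (tS S)
    omega
  · refine le_trans (sum_le_sum fun j _ => ?_) ((summable_poly_geom ((2 * k + 1) * L)).sum_le_tsum (range (n + 1))
      (fun j _ => by positivity))
    calc (ρ ^ 2) ^ j * (((j : ℝ) + 1) ^ (2 * k + 1) * θ ^ j) ^ L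
        = ((j : ℝ) + 1) ^ ((2 * k + 1) * L) * (ρ ^ 2 * θ ^ L) ^ j := by
          generalize (j : ℝ) + 1 = a
          rw [mul_pow (a ^ (2 * k + 1)) (θ ^ j) L, mul_pow (ρ ^ 2) (θ ^ L) j, ← pow_mul a, ← pow_mul θ, ← pow_mul θ,
            mul_comm j L]
          ring
      _ ≤ ((j : ℝ) + 1) ^ ((2 * k + 1) * L) * (1 / 2) ^ j := by
          apply mul_le_mul_of_nonneg_left _ (by positivity)
          exact pow_le_pow_left₀ (by positivity) hL j

/-- **(B2)** -/
theorem small_of (HA : DisjArms) : ∃ x0 : ℝ, 0 < x0 ∧ ∃ n0 : ℕ, ∀ n M : ℕ, n0 ≤ n → x0 * (2 * n) ≤ M →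
    ∀ l, 2 ≤ l → trW (2 * n) M l ≤ 1 / 2 := by
  obtain ⟨θ, h0, h1, hθ⟩ := arm_le
  obtain ⟨L, hL1, hL⟩ := exists_pow_small h0 h1 (c := 4) (ε := 1 / 4) (by norm_num)
  refine ⟨L, by exact_mod_cast hL1, 1, fun n M hn hM l hl => ?_⟩
  have hM' : L * (2 * n) ≤ M := by exact_mod_cast hM
  have hMpos : 0 < M := lt_of_lt_of_le (Nat.mul_pos (by omega) (by omega)) hM'
  have htail : ∀ j, P (tl (2 * n) M) (fun S => j ≤ Wn (2 * n) M (tS S) / 2) ≤ (θ ^ j) ^ L := by
    intro j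
    refine tail_slabs HA hMpos (h := 2 * n) (by omega) (by omega) (by positivity) fun y0 => ?_
    refine P_MM_le _ (up_Arm 1 _ _ _ _) ?_ j
    refine hθ 1 y0 (y0 + 2 * n) 0 (2 * n) _ (by norm_num) (by omega) (by omega) ?_
    rintro ⟨y, z⟩ hp
    rw [mem_sl] at hp
    exact hp.1
  set g : ℕ → ℝ := fun j => if j = 0 then 0 else 4 ^ j with hg
  have hg0 : ∀ j, 0 ≤ g j := by
    intro j
    simp only [hg]
    split_ifs
    · exact le_rfl
    · positivity
  have e1 : trW (2 * n) M l ≤ Full.Perc.Ex (tl (2 * n) M) (fun S => g (Wn (2 * n) M (tS S) / 2)) := by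
    rw [trW_eq _ _ hMpos, Ex_tile hMpos fun w => ((Pat.PN w l).card : ℝ)]
    refine Full.Perc.Ex_mono fun S _ => ?_
    have h2 := Wn_par (N := 2 * n) hMpos (tS S)
    simp only [hg]
    split_ifs with h3
    · have h4 : Wn (2 * n) M (tS S) = 0 := by omega
      rw [h4, PN_empty (by omega), Nat.cast_zero]
    · refine (card_PN_le _ l).trans ?_
      rw [show (4 : ℝ) = 2 ^ 2 by norm_num, ← pow_mul]
      apply pow_le_pow_right₀ (by norm_num)
      omega
  refine e1.trans ((Ex_le_tail (tl (2 * n) M) (fun S => Wn (2 * n) M (tS S) / 2) hg0 (K := n)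
    (fun S _ => ?_) htail).trans ?_)
  · have := Wn_le (N := 2 * n) hMpos (tS S)
    omega
  · rw [sum_range_succ']
    have h2 : g 0 * (θ ^ 0) ^ L = 0 := by simp [hg]
    rw [h2, add_zero]
    have h3 : ∀ j ∈ range n, g (j + 1) * (θ ^ (j + 1)) ^ L ≤ (1 / 4) * (1 / 4) ^ j := by
      intro j _
      have e : g (j + 1) = 4 ^ (j + 1) := by simp [hg]
      rw [e]
      calc (4 : ℝ) ^ (j + 1) * (θ ^ (j + 1)) ^ L = (4 * θ ^ L) ^ (j + 1) := by
            rw [mul_pow, ← pow_mul, ← pow_mul, mul_comm (j + 1) L]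
        _ ≤ (1 / 4) ^ (j + 1) := pow_le_pow_left₀ (by positivity) hL _
        _ = (1 / 4) * (1 / 4) ^ j := by rw [pow_succ]; ring
    refine (sum_le_sum h3).trans ?_
    rw [← mul_sum]
    have h4 : ∑ j ∈ range n, ((1 : ℝ) / 4) ^ j ≤ (1 - 1 / 4)⁻¹ := by
      have h5 := (summable_geometric_of_lt_one (r := (1 : ℝ) / 4) (by norm_num) (by norm_num)).sum_le_tsum (range n)
        (fun _ _ => by positivity)
      rwa [tsum_geometric_of_lt_one (by norm_num) (by norm_num)] at h5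
    norm_num at h4 ⊢
    linarith

theorem bd_of (HA : DisjArms) : Bd := ⟨bdd_of HA, small_of HA⟩

end H81Ann
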