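import Pool.Agent.Helper45.Ann.Rigid

/-!
The one-sided step hypothesis of `Ann.rigid_mono` from monotonicity in the size.
-/

set_option autoImplicit false

namespace H81Ann
open Finset Filter Topology Real Ann

/-- traces of powers decrease -/
theorem tp_anti {d : ℕ} {lam : Fin d → ℝ} (h0 : ∀ j, 0 ≤ lam j) (h1 : ∀ j, lam j ≤ 1) {M M' : ℕ}
    (h : M ≤ M') : tp lam M' ≤ tp lam M :=
  sum_le_sum fun j _ => pow_le_pow_of_le_one (h0 j) (h1 j) h

theorem pow_one_sub {l : ℝ} (h0 : 0 ≤ l) (h1 : l ≤ 1) (k : ℕ) : l ^ k * (1 - l) * (k + 1) ≤ 1 := by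
  have e : (∑ i ∈ range (k + 1), l ^ i) * (1 - l) = 1 - l ^ (k + 1) := by
    have := geom_sum_mul l (k + 1)
    linarith
  have h2 : (k + 1 : ℝ) * l ^ k ≤ ∑ i ∈ range (k + 1), l ^ i := by
    calc (k + 1 : ℝ) * l ^ k = ∑ _i ∈ range (k + 1), l ^ k := by
          rw [sum_const, card_range, nsmul_eq_mul]
          push_cast
          ring
      _ ≤ _ := sum_le_sum fun i hi => pow_le_pow_of_le_one h0 h1 (by
          have := mem_range.1 hi
          omega)
  have h3 : 0 ≤ l ^ (k + 1) := pow_nonneg h0 _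
  have h4 := mul_le_mul_of_nonneg_right h2 (show 0 ≤ 1 - l by linarith)
  nlinarith

theorem one_sub_pow {l : ℝ} (h0 : 0 ≤ l) (h1 : l ≤ 1) (r : ℕ) : 1 - l ^ r ≤ r * (1 - l) := by
  have e : (∑ i ∈ range r, l ^ i) * (1 - l) = 1 - l ^ r := by
    have := geom_sum_mul l r
    linarith
  rw [← e]
  apply mul_le_mul_of_nonneg_right _ (by linarith)
  calc ∑ i ∈ range r, l ^ i ≤ ∑ _i ∈ range r, (1 : ℝ) :=
        sum_le_sum fun i _ => pow_le_one₀ h0 h1
    _ = r := by simp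

/-- `l^(2k) (1 - l^r) ≤ r / (k+1) * l^k` -/
theorem pow_sub_pow {l : ℝ} (h0 : 0 ≤ l) (h1 : l ≤ 1) (k m r : ℕ) (hm : 2 * k ≤ m) :
    l ^ m - l ^ (m + r) ≤ r / (k + 1) * l ^ k := by
  have hk : (0 : ℝ) < k + 1 := by positivity
  have e : l ^ m - l ^ (m + r) = l ^ m * (1 - l ^ r) := by rw [pow_add]; ring
  have h2 : l ^ m ≤ l ^ k * l ^ k := by
    rw [← pow_add]
    exact pow_le_pow_of_le_one h0 h1 (by omega)
  have h3 : 0 ≤ 1 - l ^ r := by
    have := pow_le_one₀ h0 h1 (n := r)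
    linarith
  have h4 : l ^ k * (1 - l) ≤ 1 / (k + 1) := by
    rw [le_div_iff₀ hk]
    exact pow_one_sub h0 h1 k
  have hlk : 0 ≤ l ^ k := pow_nonneg h0 _
  calc l ^ m - l ^ (m + r) = l ^ m * (1 - l ^ r) := e
    _ ≤ (l ^ k * l ^ k) * (r * (1 - l)) :=
        mul_le_mul h2 (one_sub_pow h0 h1 r) h3 (by positivity)
    _ = (l ^ k * (1 - l)) * (r * l ^ k) := by ring
    _ ≤ (1 / (k + 1)) * (r * l ^ k) := mul_le_mul_of_nonneg_right h4 (by positivity)
    _ = r / (k + 1) * l ^ k := by ring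

theorem tp_sub {d : ℕ} {lam : Fin d → ℝ} (h0 : ∀ j, 0 ≤ lam j) (h1 : ∀ j, lam j ≤ 1) {k m r : ℕ}
    (hm : 2 * k ≤ m) : tp lam m - tp lam (m + r) ≤ r / (k + 1) * tp lam k := by
  unfold tp
  rw [← sum_sub_distrib, mul_sum]
  exact sum_le_sum fun j _ => pow_sub_pow (h0 j) (h1 j) k m r hm

section
variable {s : ℕ → ℝ} {d : ℕ → ℕ} {lam : ∀ i, Fin (d i) → ℝ} {c h : ℝ}

/-- **the step hypothesis from monotonicity in the size** -/
theorem step_of_mono (H : Spec s d lam c h) {E : ℝ} (hs1 : ∀ i, s i ≤ s (i + 1))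
    (hs2 : ∀ i, s (i + 1) ≤ s i + E)
    (mono : ∀ i M, tp (lam i) M ≤ tp (lam (i + 1)) M) {x : ℝ} (hx : 0 < x) {ε : ℝ} (hε : 0 < ε) :
    ∀ᶠ i in atTop, tp (lam i) ⌊x * s i⌋₊ - ε ≤ tp (lam (i + 1)) ⌊x * s (i + 1)⌋₊ := by
  obtain ⟨C, hC⟩ := H.bdd (x / 8) (by positivity)
  have hC' := (tendsto_add_atTop_nat 1).eventually hC
  have hstop := H.stop
  have hE : 0 ≤ E := by
    have h1 := hs1 0
    have h2 := hs2 0
    linarith
  -- large sizes
  have hlarge : ∀ᶠ i in atTop, (8 / x + E + (x * E + 1) * (|C| + 1) / (ε * x) * 4 + 1) ≤ s i :=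
    hstop.eventually_ge_atTop _
  filter_upwards [hC', hlarge] with i i1 i2
  have hsi := H.spos i
  have hpos1 : 0 < 8 / x := by positivity
  have hpos2 : 0 ≤ (x * E + 1) * (|C| + 1) / (ε * x) * 4 := by positivity
  have hs' : E ≤ s i := by linarith
  set m : ℕ := ⌊x * s i⌋₊ with hm
  set k : ℕ := m / 2 with hk
  obtain ⟨r, hr⟩ : ∃ r, ⌊x * s (i + 1)⌋₊ = m + r := by
    have : m ≤ ⌊x * s (i + 1)⌋₊ := Nat.floor_le_floor (mul_le_mul_of_nonneg_left (hs1 i) hx.le)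
    exact ⟨_, (Nat.add_sub_cancel' this).symm⟩
  have h1 : (m : ℝ) ≤ x * s i := Nat.floor_le (by positivity)
  have h2 : x * s i < m + 1 := Nat.lt_floor_add_one _
  have h3 : ((m + r : ℕ) : ℝ) ≤ x * s (i + 1) := by
    rw [← hr]
    exact Nat.floor_le (by
      have := H.spos (i + 1)
      positivity)
  have h4 : (r : ℝ) ≤ x * E + 1 := by
    push_cast at h3
    have := mul_le_mul_of_nonneg_left (hs2 i) hx.le
    nlinarith
  have h5 : (m : ℝ) ≤ 2 * k + 1 := by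
    have : m ≤ 2 * k + 1 := by omega
    exact_mod_cast this
  have h8 : 8 ≤ x * s i := by
    have : 8 / x ≤ s i := by linarith
    rw [div_le_iff₀ hx] at this
    linarith
  -- k is large
  have h6 : ⌊x / 8 * s (i + 1)⌋₊ ≤ k := by
    have h7 : x / 8 * s (i + 1) ≤ k := by
      have h9 := hs2 i
      have h10 : x / 8 * s (i + 1) ≤ x / 8 * (2 * s i) :=
        mul_le_mul_of_nonneg_left (by linarith) (by positivity)
      have h11 : x * s i / 4 ≤ k := by
        have : x * s i < 2 * k + 2 := by linarith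
        nlinarith
      calc x / 8 * s (i + 1) ≤ x / 8 * (2 * s i) := h10
        _ = x * s i / 4 := by ring
        _ ≤ k := h11
    have := Nat.floor_le_floor h7
    rwa [Nat.floor_natCast] at this
  have h7 : tp (lam (i + 1)) k ≤ |C| + 1 := by
    have h9 := tp_anti (H.lam0 (i + 1)) (H.lam1 (i + 1)) h6
    have h10 : tp (lam (i + 1)) ⌊x / 8 * s (i + 1)⌋₊ ≤ C := i1
    have := le_abs_self C
    linarith
  have h9 : 0 ≤ tp (lam (i + 1)) k := sum_nonneg fun j _ => pow_nonneg (H.lam0 _ j) _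
  have h10 := tp_sub (H.lam0 (i + 1)) (H.lam1 (i + 1)) (k := k) (m := m) (r := r) (by omega)
  have h11 : (r : ℝ) / (k + 1) * tp (lam (i + 1)) k ≤ ε := by
    have hk1 : (0 : ℝ) < k + 1 := by positivity
    rw [div_mul_eq_mul_div, div_le_iff₀ hk1]
    have h12 : (r : ℝ) * tp (lam (i + 1)) k ≤ (x * E + 1) * (|C| + 1) :=
      mul_le_mul h4 h7 h9 (by positivity)
    have h13 : (x * E + 1) * (|C| + 1) / (ε * x) * 4 ≤ s i := by linarith
    have h14 : (x * E + 1) * (|C| + 1) * 4 ≤ s i * (ε * x) := by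
      rw [div_mul_eq_mul_div, div_le_iff₀ (by positivity)] at h13
      exact h13
    have h15 : x * s i / 4 ≤ k + 1 := by
      nlinarith
    have h16 : ε * (x * s i / 4) ≤ ε * (k + 1) := mul_le_mul_of_nonneg_left h15 hε.le
    nlinarith
  have h12 := mono i m
  rw [hr]
  linarith

/-- **RIGIDITY from monotonicity in the size** -/
theorem rigid_of_mono (H : Spec s d lam c h) {E : ℝ} (hs1 : ∀ i, s i ≤ s (i + 1))
    (hs2 : ∀ i, s (i + 1) ≤ s i + E)
    (mono : ∀ i M, tp (lam i) M ≤ tp (lam (i + 1)) M) :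
    ∃ n : ℕ → ℕ, ∀ x : ℝ, 0 < x → Summable (fun k : ℕ => n k * rexp (-(c * x * (h + k)))) ∧
      ∀ M : ℕ → ℕ, Tendsto (fun i => (M i : ℝ) / s i) atTop (𝓝 x) →
        Tendsto (fun i => tp (lam i) (M i)) atTop (𝓝 (∑' k : ℕ, n k * rexp (-(c * x * (h + k))))) :=
  rigid_mono H (X := 0) (fun _ hx _ hε => step_of_mono H hs1 hs2 mono hx hε)

end

end H81Ann
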