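import Pool.Agent.Helper81.Ann.HPos
import Pool.Agent.Helper81.Ann.Alt
import Pool.Agent.Rect.Herm.Lin
import Pool.Agent.Rect.Herm.SolW

/-!
# ANNULUS (A5): real spectrum in `[0, 1]` on every standard module with `l ≥ 2` defects
-/

set_option autoImplicit false

namespace H81Ann
open Pool.Agent.Rect.Herm
open Pool.Agent.Helper9.DR RectAlg Finset Polynomial Module Rect.Alg

section form
variable {l : ℕ} (hl2 : 2 ≤ l) (m k : ℕ)

/-- the hidden scalar product on the standard module -/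
noncomputable def BW : patSys.W ℝ (m + 1) l →ₗ[ℝ] patSys.W ℝ (m + 1) l →ₗ[ℝ] ℝ :=
  ((hfamL (cl l) ℝ hl2).SfL m k).compl₁₂ (patSys.W ℝ (m + 1) l).subtype (patSys.W ℝ (m + 1) l).subtype

theorem BW_apply (v w : patSys.W ℝ (m + 1) l) :
    BW hl2 m k v w = (hfamL (cl l) ℝ hl2).Sf m k v w := rfl

theorem BW_symm (v w : patSys.W ℝ (m + 1) l) : BW hl2 m k v w = BW hl2 m k w v := by
  rw [BW_apply, BW_apply]
  exact (hfamL (cl l) ℝ hl2).Sf_symm m k _ _

variable {m k} (hm : m + 1 = l + 2 * k)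
include hm

theorem BW_pos (v : patSys.W ℝ (m + 1) l) (hv : v ≠ 0) : 0 < BW hl2 m k v v := by
  rw [BW_apply]
  exact Sl_pos hl2 hm v.2 fun h => hv (Subtype.ext h)

theorem BW_sa (p : ℝ) (v w : patSys.W ℝ (m + 1) l) :
    BW hl2 m k (patSys.DW ℝ (m + 1) l p v) w = BW hl2 m k v (patSys.DW ℝ (m + 1) l p w) := by
  rw [BW_apply, BW_apply, PatSys.DW_coe, PatSys.DW_coe]
  exact (hfamL (cl l) ℝ hl2).Sf_D (c2_pos p).ne' (by omega) hm v.2 w.2

theorem BW_nonneg {p : ℝ} (h0 : 0 ≤ p) (h1 : p ≤ 1) (v : patSys.W ℝ (m + 1) l) :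
    0 ≤ BW hl2 m k (patSys.DW ℝ (m + 1) l p v) v := by
  rw [BW_apply, PatSys.DW_coe]
  exact (hfamL (cl l) ℝ hl2).Sf_D_nonneg h0 h1 (by omega) hm v.2

end form

theorem trace_diag {V : Type*} [AddCommGroup V] [Module ℝ V] {r : ℕ} (v : Basis (Fin r) ℝ V)
    (f : Module.End ℝ V) (lam : Fin r → ℝ) (h : ∀ k, f (v k) = lam k • v k) (M : ℕ) :
    LinearMap.trace ℝ V (f ^ M) = ∑ k, lam k ^ M := by
  have h1 : ∀ k, (f ^ M) (v k) = lam k ^ M • v k := by
    intro k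
    induction M with
    | zero => simp
    | succ M ih => rw [pow_succ', Module.End.mul_apply, ih, map_smul, h, smul_smul, pow_succ]
  rw [LinearMap.trace_eq_matrix_trace ℝ v, Matrix.trace]
  refine sum_congr rfl fun k _ => ?_
  rw [Matrix.diag_apply, LinearMap.toMatrix_apply, h1]
  simp

/-- bounded power sums of nonnegative numbers -/
theorem le_one_of_bdd {r : ℕ} {lam : Fin r → ℝ} (h0 : ∀ k, 0 ≤ lam k) {C : ℝ}
    (h : ∀ M : ℕ, 0 < M → ∑ k, lam k ^ M ≤ C) (k : Fin r) : lam k ≤ 1 := by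
  by_contra hcon
  push Not at hcon
  obtain ⟨M, hM⟩ := pow_unbounded_of_one_lt C hcon
  have h1 := h (M + 1) (Nat.succ_pos _)
  have h2 : lam k ^ (M + 1) ≤ ∑ k, lam k ^ (M + 1) :=
    single_le_sum (f := fun k => lam k ^ (M + 1)) (fun i _ => pow_nonneg (h0 i) _) (mem_univ k)
  have h3 : lam k ^ M ≤ lam k ^ (M + 1) := pow_le_pow_right₀ hcon.le (Nat.le_succ M)
  linarith

theorem Ex_le {N M : ℕ} {F : Ann32.Cfg N M → ℝ} {C : ℝ} (h : ∀ ω, F ω ≤ C) : Ann32.Ex N M F ≤ C := by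
  unfold Ann32.Ex
  rw [div_le_iff₀ (by positivity)]
  calc ∑ ω, F ω ≤ ∑ _ω : Ann32.Cfg N M, C := sum_le_sum fun ω _ => h ω
    _ = C * 2 ^ (2 * M * N) := by
      rw [sum_const, card_univ, nsmul_eq_mul]
      simp only [Fintype.card_fun, Fintype.card_fin, Fintype.card_bool]
      push_cast
      rw [← pow_mul, mul_comm N]
      ring

/-- **(A5)** the joint spectral data of the transfer matrices on `W N l`, `l ≥ 2` -/
theorem specL {l : ℕ} (hl2 : 2 ≤ l) (N : ℕ) : ∃ (r : ℕ) (d : Fin r → ℝ[X]),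
    (∀ k, DR.Sol N ((d k).map (algebraMap ℝ ℂ))) ∧
    (∀ k, ∀ p : ℂ, p ^ 2 - p + 1 = 0 → ((d k).map (algebraMap ℝ ℂ)).eval p = if l % 3 = 2 then -2 else 1) ∧
    (∀ k, 0 ≤ (d k).eval (1 / 2)) ∧ (∀ k, (d k).eval (1 / 2) ≤ 1) ∧
    ∀ M, trW N M l = ∑ k, (d k).eval (1 / 2) ^ M := by
  classical
  by_cases hN : ∃ k, N = l + 2 * k
  · obtain ⟨k, hk⟩ := hN
    obtain ⟨m, rfl⟩ : ∃ m, N = m + 1 := ⟨N - 1, by omega⟩
    obtain ⟨C, hC⟩ := patSys.DW_coeff ℝ (m + 1) l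
    have hcm : ∀ p q, Commute (patSys.DW ℝ (m + 1) l p) (patSys.DW ℝ (m + 1) l q) :=
      fun p q => patSys.DW_comm ℝ (m + 1) l p q
    have hc1 : ∀ p, Commute (patSys.DW ℝ (m + 1) l p) (1 : Module.End ℝ (patSys.W ℝ (m + 1) l)) :=
      fun p => Commute.one_right _
    obtain ⟨v, d, g, h1, h2, h3, -, -⟩ := spec_form (V := patSys.W ℝ (m + 1) l) (BW hl2 m k)
      (BW_symm hl2 m k) (BW_pos hl2 hk) (m := 2 * (m + 1)) (patSys.DW ℝ (m + 1) l) C hC
      (BW_sa hl2 hk) hcm (1 : Module.End ℝ (patSys.W ℝ (m + 1) l))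
      (fun x y => rfl) hc1
    have hnn : ∀ k, 0 ≤ (d k).eval (1 / 2) := by
      intro j
      have h4 := BW_nonneg hl2 hk (p := 1 / 2) (by norm_num) (by norm_num) (v j)
      rw [h3, map_smul, LinearMap.smul_apply, h1, if_pos rfl, smul_eq_mul, mul_one] at h4
      exact h4
    have htr : ∀ M, trW (m + 1) M l = ∑ k, (d k).eval (1 / 2) ^ M := fun M =>
      trace_diag (V := patSys.W ℝ (m + 1) l) v (patSys.DW ℝ (m + 1) l (1 / 2))
        (fun k => (d k).eval (1 / 2)) (fun k => h3 k (1 / 2)) M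
    refine ⟨_, d, ?_, ?_, hnn, ?_, htr⟩
    · intro j
      exact PatSys.sol_W (S := patSys) (v := v j) (v.ne_zero j) (h2 j) (h3 j)
    · intro j p hp
      exact PatSys.braid_W (S := patSys) (v := v j) (v.ne_zero j) (h3 j) hp
    · refine le_one_of_bdd hnn (C := ((range (m + 2)).sup fun W => (Pat.PN W l).card : ℕ)) ?_
      intro M hM
      rw [← htr, trW_eq _ _ hM]
      refine Ex_le fun ω => ?_
      have h5 := Wn_le (N := m + 1) hM (Ann32.ext ω)
      exact_mod_cast le_sup (f := fun W => (Pat.PN W l).card) (mem_range.2 (by omega))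
  · have he : Pat.PN N l = ∅ := by
      rw [eq_empty_iff_forall_notMem]
      intro f hf
      have h1 := (Pat.mem_PN.1 hf).opn_total
      have h2 : (0 : ℤ) ≤ opn f.fn N := sum_nonneg fun t _ => by split_ifs <;> norm_num
      apply hN
      exact ⟨(opn f.fn N).toNat, by omega⟩
    refine ⟨0, Fin.elim0, fun k => k.elim0, fun k => k.elim0, fun k => k.elim0, fun k => k.elim0, ?_⟩
    intro M
    have hfr : finrank ℝ (patSys.W ℝ N l) = 0 := by
      rw [patSys.finrank_W]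
      show (Pat.PN N l).card = 0
      rw [he, card_empty]
    have hsub : Subsingleton (patSys.W ℝ N l) := finrank_zero_iff.1 hfr
    unfold trW
    rw [Subsingleton.elim (patSys.DW ℝ N l (1 / 2) ^ M) 0, map_zero]
    simp

end H81Ann
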