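import Pool.Agent.Helper81.Ann.Ballot
import Pool.Agent.Helper81.Ann.SpecL
import Pool.Agent.Helper81.Ann.Mono
import Pool.Agent.Helper40.A4.SpecQuant

/-!
# ANNULUS: existence of the limits, from the exponential moments of the number of loops
-/

set_option autoImplicit false

namespace H81Ann
open Ann32 RectAlg Filter Topology Real Polynomial
open Finset hiding ext

/-- the percolation input: exponential moments, and few loops on long cylinders -/
structure Bd : Prop where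
  bdd : ∀ ρ : ℝ, 1 ≤ ρ → ∀ x : ℝ, 0 < x → ∃ C : ℝ, ∃ n0 : ℕ, ∀ n M : ℕ, n0 ≤ n → x * (2 * n) ≤ M →
    ZW (2 * n) M ρ ≤ C
  small : ∃ x0 : ℝ, 0 < x0 ∧ ∃ n0 : ℕ, ∀ n M : ℕ, n0 ≤ n → x0 * (2 * n) ≤ M → ∀ l, 2 ≤ l → trW (2 * n) M l ≤ 1 / 2

/-! ### elementary bounds -/

theorem Ex_mono' {N M : ℕ} {F G : Cfg N M → ℝ} (h : ∀ ω, F ω ≤ G ω) : Ex N M F ≤ Ex N M G := by
  unfold Ex
  exact div_le_div_of_nonneg_right (sum_le_sum fun ω _ => h ω) (by positivity)

theorem Ex_nonneg {N M : ℕ} {F : Cfg N M → ℝ} (h : ∀ ω, 0 ≤ F ω) : 0 ≤ Ex N M F := by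
  unfold Ex
  exact div_nonneg (sum_nonneg fun ω _ => h ω) (by positivity)

theorem Uc_two (l : ℕ) : Uc 2 l = l + 1 := by
  induction l using Nat.strong_induction_on with
  | _ l ih =>
    match l with
    | 0 => simp [Uc]
    | 1 => simp [Uc]; norm_num
    | l + 2 =>
      have h1 := ih l (by omega)
      have h2 := ih (l + 1) (by omega)
      have e : Uc 2 (l + 2) = 2 * Uc 2 (l + 1) - Uc 2 l := rfl
      rw [e, h1, h2]
      push_cast
      ring

theorem card_PN_le (N l : ℕ) : ((Pat.PN N l).card : ℝ) ≤ 2 ^ N := by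
  rcases Nat.lt_or_ge N l with h | h
  · rw [PN_empty h, Nat.cast_zero]
    positivity
  · rw [← pow_eq_sum 2 N N le_rfl]
    have h1 : (1 : ℝ) * ((Pat.PN N l).card : ℝ) ≤ Uc 2 l * ((Pat.PN N l).card : ℝ) := by
      apply mul_le_mul_of_nonneg_right _ (Nat.cast_nonneg _)
      rw [Uc_two]
      have : (0 : ℝ) ≤ l := Nat.cast_nonneg _
      linarith
    rw [one_mul] at h1
    have h2 : ∀ i ∈ range (N + 1), 0 ≤ Uc 2 i * ((Pat.PN N i).card : ℝ) := by
      intro i _
      rw [Uc_two]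
      positivity
    exact h1.trans (single_le_sum (f := fun l => Uc 2 l * ((Pat.PN N l).card : ℝ)) h2
      (mem_range.2 (by omega)))

theorem card_PN_le' {ρ : ℝ} (hρ : 2 ≤ ρ) (N l : ℕ) : ((Pat.PN N l).card : ℝ) ≤ (2 / ρ) ^ l * ρ ^ N := by
  rcases Nat.lt_or_ge N l with h | h
  · rw [PN_empty h]
    simp only [Nat.cast_zero]
    positivity
  · refine (card_PN_le N l).trans ?_
    obtain ⟨j, rfl⟩ : ∃ j, N = l + j := ⟨N - l, by omega⟩
    have hρ0 : 0 < ρ := by linarith
    rw [div_pow, pow_add, pow_add, div_mul_eq_mul_div, le_div_iff₀ (by positivity)]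
    have h1 : (2 : ℝ) ^ j ≤ ρ ^ j := pow_le_pow_left₀ (by norm_num) hρ j
    have h2 : 0 ≤ (2 : ℝ) ^ l * ρ ^ l := by positivity
    nlinarith

theorem trW_nonneg (N l : ℕ) {M : ℕ} (hM : 0 < M) : 0 ≤ trW N M l := by
  rw [trW_eq N l hM]
  exact Ex_nonneg fun ω => Nat.cast_nonneg _

theorem trW_le {ρ : ℝ} (hρ : 2 ≤ ρ) (N l : ℕ) {M : ℕ} (hM : 0 < M) :
    trW N M l ≤ (2 / ρ) ^ l * ZW N M ρ := by
  rw [trW_eq N l hM]
  have h1 : (2 / ρ) ^ l * ZW N M ρ = Ex N M fun ω => (2 / ρ) ^ l * ρ ^ Wn N M (ext ω) := by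
    unfold ZW Ex
    rw [← mul_sum, mul_div_assoc]
  rw [h1]
  exact Ex_mono' fun ω => card_PN_le' hρ _ l

theorem trW_big {N l : ℕ} (h : N < l) {M : ℕ} (hM : 0 < M) : trW N M l = 0 := by
  rw [trW_eq N l hM]
  unfold Ex
  rw [sum_eq_zero, zero_div]
  intro ω _
  rw [PN_empty (lt_of_le_of_lt (Wn_le hM _) h), Nat.cast_zero]

theorem PN_par {N l : ℕ} (h : N % 2 ≠ l % 2) : (Pat.PN N l).card = 0 := by
  rw [card_eq_zero, eq_empty_iff_forall_notMem]
  intro f hf
  have h1 := (Pat.mem_PN.1 hf).opn_total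
  omega

theorem trW_par {N l : ℕ} (h : N % 2 ≠ l % 2) {M : ℕ} (hM : 0 < M) : trW N M l = 0 := by
  rw [trW_eq N l hM]
  unfold Ex
  rw [sum_eq_zero, zero_div]
  intro ω _
  have := Wn_par (N := N) hM (ext ω)
  rw [PN_par (by omega), Nat.cast_zero]

theorem trW_zero_pow (N l : ℕ) : trW N 0 l = (Pat.PN N l).card := by
  unfold trW
  rw [pow_zero]
  have h : trU (patSys.W ℝ N l) (1 : Module.End ℝ (Pat →₀ ℝ)) = Module.finrank ℝ (patSys.W ℝ N l) := trU_one
  rw [trU_of (fun v hv => hv), patSys.finrank_W] at h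
  exact h

theorem card_PN_mono (N l : ℕ) : (Pat.PN N l).card ≤ (Pat.PN (N + 2) l).card := by
  have := finrank_add_two (patTr ℝ l) N
  rwa [finrank_VN, finrank_VN] at this

theorem trW_mono' (N l M : ℕ) : trW N M l ≤ trW (N + 2) M l := by
  rcases Nat.eq_zero_or_pos M with rfl | hM
  · rw [trW_zero_pow, trW_zero_pow]
    exact_mod_cast card_PN_mono N l
  · exact trW_mono N l hM

/-! ### the limit of the traces -/

/-- the fractional part of the levels -/
noncomputable def hl (l : ℕ) : ℝ := if l % 3 = 2 then 1 / 3 else 0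

theorem hl_nonneg (l : ℕ) : 0 ≤ hl l := by
  unfold hl
  split_ifs <;> norm_num

/-- the spectral gap -/
theorem gap (H : Bd) : ∃ c : ℝ, 0 < c ∧ ∀ᶠ n : ℕ in atTop, ∀ l, 2 ≤ l → ∀ (r : ℕ) (lam : Fin r → ℝ),
    (∀ k, 0 ≤ lam k) → (∀ M, trW (2 * n) M l = ∑ k, lam k ^ M) →
    ∀ k, lam k ≤ rexp (-(c / ((2 * n : ℕ) : ℝ))) := by
  obtain ⟨x0, hx0, n0, h⟩ := H.small
  refine ⟨Real.log 2 / (x0 + 1), div_pos (Real.log_pos (by norm_num)) (by linarith), ?_⟩
  filter_upwards [eventually_ge_atTop (max n0 1)] with n hn l hl r lam hlam htr k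
  have hn0 : n0 ≤ n := le_trans (le_max_left _ _) hn
  have hn1 : 1 ≤ n := le_trans (le_max_right _ _) hn
  have hn1' : (1 : ℝ) ≤ n := by exact_mod_cast hn1
  set M : ℕ := ⌈x0 * (2 * n)⌉₊ with hM
  have h1 : x0 * (2 * n) ≤ M := Nat.le_ceil _
  have h2 : (M : ℝ) < x0 * (2 * n) + 1 := Nat.ceil_lt_add_one (by positivity)
  have hMpos : 0 < M := Nat.ceil_pos.2 (by positivity)
  have h3 := h n M hn0 h1 l hl
  rw [htr] at h3
  have h4 : lam k ^ M ≤ 1 / 2 :=
    (single_le_sum (f := fun k => lam k ^ M) (fun i _ => pow_nonneg (hlam i) _) (mem_univ k)).trans h3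
  have h5 : rexp (-(Real.log 2 / M)) ^ M = 1 / 2 := by
    rw [← Real.exp_nat_mul]
    have e : (M : ℝ) * -(Real.log 2 / M) = -Real.log 2 := by
      have : (M : ℝ) ≠ 0 := by positivity
      field_simp
    rw [e, Real.exp_neg, Real.exp_log (by norm_num)]
    norm_num
  have h6 : lam k ≤ rexp (-(Real.log 2 / M)) := by
    rw [← h5] at h4
    exact le_of_pow_le_pow_left₀ hMpos.ne' (Real.exp_pos _).le h4
  refine h6.trans (Real.exp_le_exp.2 ?_)
  rw [neg_le_neg_iff, div_div]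
  apply div_le_div_of_nonneg_left (Real.log_pos (by norm_num)).le (by positivity)
  push_cast
  nlinarith

/-- **the limits of the traces exist** -/
theorem trace_limit (H : Bd) {l : ℕ} (hl2 : 2 ≤ l) : ∃ m : ℕ → ℕ, ∀ x : ℝ, 0 < x →
    Summable (fun k : ℕ => m k * rexp (-(2 * π * x * (hl l + k)))) ∧
      ∀ M : ℕ → ℕ, Tendsto (fun n => (M n : ℝ) / (2 * n)) atTop (𝓝 x) →
        Tendsto (fun n => trW (2 * n) (M n) l) atTop (𝓝 (∑' k : ℕ, m k * rexp (-(2 * π * x * (hl l + k))))) := by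
  choose r d h1 h2 h3 h4 h5 using specL hl2
  obtain ⟨c, hc, hgap⟩ := gap H
  -- sizes
  set s : ℕ → ℝ := fun i => 2 * ((i : ℝ) + 1) with hs
  set N : ℕ → ℕ := fun i => 2 * (i + 1) with hN
  have hsN : ∀ i, s i = (N i : ℝ) := fun i => by
    simp only [hs, hN]
    push_cast
    ring
  have hspos : ∀ i, 0 < s i := fun i => by
    simp only [hs]
    positivity
  have hstop : Tendsto s atTop atTop := by
    simp only [hs]
    exact Tendsto.const_mul_atTop (by norm_num) (tendsto_atTop_add_const_right _ _ tendsto_natCast_atTop_atTop)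
  have hNtop : Tendsto N atTop atTop := by
    refine tendsto_atTop_mono (fun i => ?_) tendsto_id
    simp only [hN, id]
    omega
  have hi1 : Tendsto (fun i : ℕ => i + 1) atTop atTop := tendsto_add_atTop_nat 1
  set lam : ∀ i, Fin (r (N i)) → ℝ := fun i k => (d (N i) k).eval (1 / 2) with hlam
  have htp : ∀ i M, Ann.tp (lam i) M = trW (N i) M l := fun i M => (h5 (N i) M).symm
  have S : Ann.Spec s (fun i => r (N i)) lam (2 * π) (hl l) := by
    refine ⟨hspos, hstop, by positivity, hl_nonneg l, fun i j => h3 _ j, fun i j => h4 _ j, ?_, ?_⟩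
    · intro K ε hε
      have q1 := hNtop.eventually (A4.spec_quant_l (K := K) hc hε)
      have q2 := hi1.eventually hgap
      filter_upwards [q1, q2] with i i1 i2 j hj
      have e1 : rexp (-(K / s i)) = rexp (-(K / (N i : ℝ))) := by rw [hsN]
      rw [e1] at hj
      have hj2 := i2 l hl2 (r (N i)) (lam i) (fun k => h3 _ k) (fun M => h5 (N i) M) j
      obtain ⟨m, hm⟩ := i1 l (d (N i) j) (h1 _ j) (h2 _ j) hj hj2
      refine ⟨m, ?_⟩
      rw [hsN]
      exact hm
    · intro x hx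
      obtain ⟨C, n0, hC⟩ := H.bdd 2 (by norm_num) (x / 2) (by positivity)
      refine ⟨C, ?_⟩
      have q1 := hstop.eventually_ge_atTop (2 / x)
      filter_upwards [q1, eventually_ge_atTop n0] with i i1 i2
      rw [htp]
      have hxs : 2 ≤ x * s i := by
        rw [div_le_iff₀ hx] at i1
        linarith
      have h6 : x * s i < ⌊x * s i⌋₊ + 1 := Nat.lt_floor_add_one _
      have h7 : (1 : ℝ) ≤ ⌊x * s i⌋₊ := by
        have : 1 ≤ ⌊x * s i⌋₊ := Nat.one_le_iff_ne_zero.2 (by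
          intro h0
          rw [h0] at h6
          simp only [Nat.cast_zero] at h6
          linarith)
        exact_mod_cast this
      have h8 : 0 < ⌊x * s i⌋₊ := by
        have : (0 : ℝ) < ⌊x * s i⌋₊ := by linarith
        exact_mod_cast this
      have h9 := trW_le (ρ := 2) le_rfl (N i) l h8
      rw [div_self (by norm_num), one_pow, one_mul] at h9
      refine h9.trans (hC (i + 1) _ (by omega) ?_)
      have e : (2 : ℝ) * ((i + 1 : ℕ) : ℝ) = s i := by
        simp only [hs]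
        push_cast
        ring
      rw [e]
      linarith
  obtain ⟨m, hm⟩ := rigid_of_mono S (E := 2) (fun i => by
    simp only [hs]
    push_cast
    linarith) (fun i => by
    simp only [hs]
    push_cast
    linarith) (fun i M => by
    rw [htp, htp]
    exact trW_mono' (N i) l M)
  refine ⟨m, fun x hx => ⟨(hm x hx).1, fun M hM => ?_⟩⟩
  have h6 := (hm x hx).2 (fun i => M (i + 1)) (by
    have := hM.comp hi1
    refine this.congr fun i => ?_
    simp only [Function.comp, hs]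
    push_cast
    ring)
  have h7 : Tendsto (fun i => trW (2 * (i + 1)) (M (i + 1)) l) atTop
      (𝓝 (∑' k : ℕ, m k * rexp (-(2 * π * x * (hl l + k))))) := by
    refine h6.congr fun i => ?_
    rw [htp]
  exact (tendsto_add_atTop_iff_nat 1).1 h7

end H81Ann
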