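import Pool.Agent.Helper81.Ann.MultiBK
import Pool.Agent.Helper81.Ann.Limit
import Pool.Agent.Helper32.Ann.Slab

/-!
# ANNULUS (A7): exponential moments of the number of loops, from disjoint arms in the slabs
-/

set_option autoImplicit false

namespace H81Ann
open Ann32 Filter Topology
open Finset hiding ext
open Pool.Agent.Helper69.RSW (P P_mono P_congr P_nonneg P_le_one P_or_le Up Dep P_union P_restrict P_false)

/-- the tiles of the cylinder `(row, column)` -/
def tl (N M : ℕ) : Finset (ℕ × ℕ) := range (2 * M) ×ˢ range N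

/-- the configuration whose set of dual tiles is `S` -/
def tS (S : Finset (ℕ × ℕ)) (y x : ℕ) : Bool := decide ((y, x) ∈ S ↔ (x + y) % 2 = 1)

/-- the set of the dual tiles -/
def dT {N M : ℕ} (ω : Cfg N M) : Finset (ℕ × ℕ) :=
  (tl N M).filter fun p => ext ω p.1 p.2 = decide ((p.2 + p.1) % 2 = 1)

theorem mem_tl {N M y x : ℕ} : (y, x) ∈ tl N M ↔ y < 2 * M ∧ x < N := by
  unfold tl
  rw [mem_product, mem_range, mem_range]

theorem tS_iff {S : Finset (ℕ × ℕ)} {y x : ℕ} : ((y, x) ∈ S) ↔ tS S y x = decide ((x + y) % 2 = 1) := by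
  unfold tS
  by_cases h1 : (y, x) ∈ S <;> by_cases h2 : (x + y) % 2 = 1 <;> simp [h1, h2]

theorem tS_dT {N M : ℕ} (ω : Cfg N M) {y x : ℕ} (hy : y < 2 * M) (hx : x < N) : tS (dT ω) y x = ext ω y x := by
  have h1 : (y, x) ∈ dT ω ↔ ext ω y x = decide ((x + y) % 2 = 1) := by
    unfold dT
    rw [mem_filter, mem_tl]
    exact ⟨fun h => h.2, fun h => ⟨⟨hy, hx⟩, h⟩⟩
  rw [tS_iff] at h1
  by_cases h2 : (x + y) % 2 = 1
  · simp only [h2, decide_true] at h1
    exact Bool.eq_iff_iff.2 h1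
  · simp only [h2, decide_false] at h1
    by_cases h3 : tS (dT ω) y x = false
    · rw [h3, h1.1 h3]
    · have h4 : ¬ ext ω y x = false := fun h => h3 (h1.2 h)
      rw [Bool.not_eq_false] at h3 h4
      rw [h3, h4]

theorem E0_congr {N M : ℕ} {t t' : ℕ → ℕ → Bool} (h : ∀ y x, y < 2 * M → x < N → t y x = t' y x) {a b : ℕ × ℕ}
    (he : E0 N M t a b) : E0 N M t' a b := by
  obtain ⟨x, y, hx, hy, h1⟩ := he
  refine ⟨x, y, hx, hy, ?_⟩
  rwa [← h y x hy hx]

theorem Reach_congr {N M : ℕ} {t t' : ℕ → ℕ → Bool} (h : ∀ y x, y < 2 * M → x < N → t y x = t' y x) {k : ℕ}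
    {a : ℕ × ℕ} (hr : Reach N M t k a) : Reach N M t' k a := by
  induction hr with
  | start y hy h2 => exact Reach.start y hy h2
  | weak _ ih => exact ih.weak
  | step0 _ he ih => exact ih.step0 (he.imp (E0_congr h) (E0_congr h))
  | step1 _ he ih => exact ih.step1 he

theorem Wn_congr {N M : ℕ} (hM : 0 < M) {t t' : ℕ → ℕ → Bool} (h : ∀ y x, y < 2 * M → x < N → t y x = t' y x) :
    Wn N M t = Wn N M t' := by
  have key : ∀ {t t' : ℕ → ℕ → Bool}, (∀ y x, y < 2 * M → x < N → t y x = t' y x) → Wn N M t' ≤ Wn N M t := by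
    intro t t' h
    rw [Wn_le_iff hM]
    obtain ⟨y, h1, h2, h3⟩ := (Wn_le_iff hM t _).1 le_rfl
    exact ⟨y, h1, h2, Reach_congr h h3⟩
  exact le_antisymm (key fun y x hy hx => (h y x hy hx).symm) (key h)

/-- the law of the set of dual tiles is uniform -/
theorem Ex_tile {N M : ℕ} (hM : 0 < M) (g : ℕ → ℝ) :
    Ann32.Ex N M (fun ω => g (Wn N M (ext ω))) = Full.Perc.Ex (tl N M) (fun S => g (Wn N M (tS S))) := by
  unfold Ann32.Ex Full.Perc.Ex
  have hc : (tl N M).card = 2 * M * N := by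
    unfold tl
    rw [card_product, card_range, card_range]
  rw [hc]
  congr 1
  refine sum_nbij' (i := fun ω => dT ω) (j := fun S => fun y x => tS S y.1 x.1) ?_ ?_ ?_ ?_ ?_
  · intro ω _
    rw [mem_powerset]
    exact filter_subset _ _
  · intro S _
    exact mem_univ _
  · intro ω _
    funext y x
    have h1 := tS_dT ω y.2 x.2
    rw [h1]
    unfold ext
    rw [dif_pos ⟨y.2, x.2⟩]
  · intro S hS
    rw [mem_powerset] at hS
    ext ⟨y, x⟩
    unfold dT
    rw [mem_filter]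
    constructor
    · rintro ⟨h1, h2⟩
      rw [mem_tl] at h1
      rw [tS_iff]
      unfold ext at h2
      rw [dif_pos h1] at h2
      exact h2
    · intro h1
      have h2 := hS h1
      refine ⟨h2, ?_⟩
      rw [mem_tl] at h2
      rw [tS_iff] at h1
      unfold ext
      rw [dif_pos h2]
      exact h1
  · intro ω _
    congr 1
    exact (Wn_congr hM fun y x hy hx => tS_dT ω hy hx).symm

/-- the tiles of a slab -/
def sl (N y0 y1 : ℕ) : Finset (ℕ × ℕ) := Ico y0 y1 ×ˢ range N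

theorem mem_sl {N y0 y1 y x : ℕ} : (y, x) ∈ sl N y0 y1 ↔ (y0 ≤ y ∧ y < y1) ∧ x < N := by
  unfold sl
  rw [mem_product, mem_Ico, mem_range]

/-- (A7a): disjoint dual arms in the slabs -/
def DisjArms : Prop := ∀ n M y0 y1 : ℕ, 0 < M → y0 < y1 → y1 + 1 ≤ 2 * M → ∀ S ⊆ tl (2 * n) M,
  MM (Arm 1 0 (2 * n) y0 y1) (Wn (2 * n) M (tS S) / 2) (S ∩ sl (2 * n) y0 y1)

theorem MM_of_le {E : Type*} {Q : Finset E → Prop} {i j : ℕ} (hij : i ≤ j) {S : Finset E} (h : MM Q j S) :
    MM Q i S := by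
  classical
  obtain ⟨I, f, h1, h2, h3⟩ := h
  obtain ⟨J, hJ, hc⟩ := exists_subset_card_eq (s := I) (n := i) (by omega)
  exact ⟨J, f, hc, fun i hi => h2 i (hJ hi), fun i hi k hk => h3 i (hJ hi) k (hJ hk)⟩

/-- tail bound from `L` slabs of height `h` -/
theorem tail_slabs (HA : DisjArms) {n M h L j : ℕ} (hM : 0 < M) (hh : 0 < h) (hL : L * h + 1 ≤ 2 * M) {q : ℝ}
    (hq : 0 ≤ q) (hP : ∀ y0, P (sl (2 * n) y0 (y0 + h)) (MM (Arm 1 0 (2 * n) y0 (y0 + h)) j) ≤ q) :
    P (tl (2 * n) M) (fun S => j ≤ Wn (2 * n) M (tS S) / 2) ≤ q ^ L := by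
  have hmul : ∀ s < L, s * h + h ≤ L * h := by
    intro s hs
    calc s * h + h = (s + 1) * h := by ring
      _ ≤ L * h := Nat.mul_le_mul_right h hs
  refine le_trans (P_mono (B := fun S => ∀ s < L,
    MM (Arm 1 0 (2 * n) (s * h) (s * h + h)) j (S ∩ sl (2 * n) (s * h) (s * h + h))) ?_)
    (P_slabs (F := fun s => sl (2 * n) (s * h) (s * h + h))
      (A := fun s => MM (Arm 1 0 (2 * n) (s * h) (s * h + h)) j) hq L (tl (2 * n) M) ?_ ?_ ?_)
  · intro S hS hj s hs
    have := hmul s hs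
    exact MM_of_le hj (HA n M (s * h) (s * h + h) hM (by omega) (by omega) S hS)
  · rintro s hs ⟨y, x⟩ hp
    have := hmul s hs
    rw [mem_sl] at hp
    rw [mem_tl]
    omega
  · intro s _ t _ hst
    rw [disjoint_left]
    rintro ⟨y, x⟩ h1 h2
    rw [mem_sl] at h1 h2
    rcases Nat.lt_or_gt_of_ne hst with h3 | h3
    · have : (s + 1) * h ≤ t * h := Nat.mul_le_mul_right h h3
      have e : (s + 1) * h = s * h + h := by ring
      omega
    · have : (t + 1) * h ≤ s * h := Nat.mul_le_mul_right h h3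
      have e : (t + 1) * h = t * h + h := by ring
      omega
  · intro s _
    exact hP _

theorem Arm_split {n h y0 K : ℕ} (hK : 2 * n ≤ K * h) (hh : 0 < h) {S : Finset (ℕ × ℕ)}
    (hA : Arm 1 0 (2 * n) y0 (y0 + h) S) : ∃ b < K + 1, Arm 1 (b * h) (b * h + h) y0 (y0 + h) S := by
  obtain ⟨x, x', h1, h2, h3, h4⟩ := hA
  refine ⟨x / h, ?_, x, x', Nat.div_mul_le_self x h, ?_, h3, h4⟩
  · have : x / h ≤ K := by
      rw [← Nat.mul_div_cancel K hh]
      exact Nat.div_le_div_right (h2.trans hK)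
    omega
  · have h5 := Nat.div_add_mod x h
    have h6 := Nat.mod_lt x hh
    have h7 : h * (x / h) = x / h * h := Nat.mul_comm _ _
    omega

end H81Ann
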