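import Pool.Agent.Helper81.Ann.Limit

/-!
# ANNULUS: convergence of the law of the number of non contractible loops
-/

set_option autoImplicit false

namespace H81Ann
open Ann32 RectAlg Filter Topology Real
open Finset hiding ext

/-- from sequences indexed by the size to arbitrary filters -/
theorem unif_of_seq {G : ℕ → ℕ → ℝ} {x L : ℝ} (hx : 0 < x)
    (h : ∀ M : ℕ → ℕ, Tendsto (fun n => (M n : ℝ) / (2 * n)) atTop (𝓝 x) → Tendsto (fun n => G n (M n)) atTop (𝓝 L)) :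
    ∀ ε : ℝ, 0 < ε → ∃ δ : ℝ, 0 < δ ∧ ∃ n0 : ℕ, ∀ n M : ℕ, n0 ≤ n → |(M : ℝ) / (2 * n) - x| < δ →
      |G n M - L| < ε := by
  classical
  intro ε hε
  by_contra hcon
  push Not at hcon
  have h1 : ∀ k : ℕ, ∃ n M : ℕ, k ≤ n ∧ |(M : ℝ) / (2 * n) - x| < 1 / ((k : ℝ) + 1) ∧ ε ≤ |G n M - L| := by
    intro k
    obtain ⟨n, M, h2, h3, h4⟩ := hcon (1 / ((k : ℝ) + 1)) (by positivity) k
    exact ⟨n, M, h2, h3, h4⟩
  choose n M hn hM hG using h1
  set M' : ℕ → ℕ := fun a => if h : ∃ k, n k = a then M h.choose else ⌊x * (2 * a)⌋₊ with hM'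
  have hfl : Tendsto (fun a : ℕ => (⌊x * (2 * (a : ℝ))⌋₊ : ℝ) / (2 * a)) atTop (𝓝 x) := by
    have h2 : Tendsto (fun a : ℕ => (2 * (a : ℝ))) atTop atTop :=
      Tendsto.const_mul_atTop (by norm_num) tendsto_natCast_atTop_atTop
    have h3 := tendsto_nat_floor_mul_div_atTop (R := ℝ) hx.le
    exact h3.comp h2
  have hlim : Tendsto (fun a => (M' a : ℝ) / (2 * a)) atTop (𝓝 x) := by
    rw [Metric.tendsto_atTop] at hfl ⊢
    intro η hη
    obtain ⟨a0, ha0⟩ := hfl η hη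
    obtain ⟨K, hK⟩ := exists_nat_one_div_lt hη
    refine ⟨max a0 (((range (K + 1)).sup n) + 1), fun a ha => ?_⟩
    have h4 : a0 ≤ a := le_trans (le_max_left _ _) ha
    have h5 : ((range (K + 1)).sup n) + 1 ≤ a := le_trans (le_max_right _ _) ha
    by_cases hk : ∃ k, n k = a
    · have e : M' a = M hk.choose := dif_pos hk
      have h6 : n hk.choose = a := hk.choose_spec
      have h7 : K < hk.choose := by
        by_contra hc
        have h8 : n hk.choose ≤ (range (K + 1)).sup n := le_sup (mem_range.2 (by omega))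
        omega
      rw [e, Real.dist_eq]
      have h9 := hM hk.choose
      rw [h6] at h9
      refine h9.trans (lt_of_le_of_lt ?_ hK)
      apply one_div_le_one_div_of_le (by positivity)
      have : (K : ℝ) < hk.choose := by exact_mod_cast h7
      linarith
    · have e : M' a = ⌊x * (2 * (a : ℝ))⌋₊ := dif_neg hk
      rw [e]
      exact ha0 a h4
  have h2 := h M' hlim
  rw [Metric.tendsto_atTop] at h2
  obtain ⟨a0, ha0⟩ := h2 ε hε
  have hk : ∃ k, n k = n a0 := ⟨a0, rfl⟩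
  have h3 := ha0 (n a0) (hn a0)
  have e : M' (n a0) = M hk.choose := dif_pos hk
  have h6 : n hk.choose = n a0 := hk.choose_spec
  rw [e, Real.dist_eq] at h3
  have h4 := hG hk.choose
  rw [h6] at h4
  linarith

theorem tendsto_of_seq {G : ℕ → ℕ → ℝ} {x L : ℝ} (hx : 0 < x)
    (h : ∀ M : ℕ → ℕ, Tendsto (fun n => (M n : ℝ) / (2 * n)) atTop (𝓝 x) → Tendsto (fun n => G n (M n)) atTop (𝓝 L))
    {ι : Type*} {F : Filter ι} {n M : ι → ℕ} (hn : Tendsto n F atTop)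
    (hM : Tendsto (fun i => (M i : ℝ) / (2 * n i)) F (𝓝 x)) : Tendsto (fun i => G (n i) (M i)) F (𝓝 L) := by
  rw [Metric.tendsto_nhds] at hM ⊢
  intro ε hε
  obtain ⟨δ, hδ, n0, h1⟩ := unif_of_seq hx h ε hε
  filter_upwards [hM δ hδ, hn.eventually_ge_atTop n0] with i h2 h3
  exact h1 _ _ h3 h2

theorem abs_Uc_le (w : ℝ) : ∀ l, |Uc w l| ≤ (|w| + 1) ^ l := by
  intro l
  induction l using Nat.strong_induction_on with
  | _ l ih =>
    match l with
    | 0 => simp [Uc]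
    | 1 => simp [Uc]
    | l + 2 =>
      have h1 := ih l (by omega)
      have h2 := ih (l + 1) (by omega)
      have e : Uc w (l + 2) = w * Uc w (l + 1) - Uc w l := rfl
      rw [e]
      have h0 : 0 ≤ |w| := abs_nonneg w
      have h4 : 0 ≤ (|w| + 1) ^ l := by positivity
      calc |w * Uc w (l + 1) - Uc w l| ≤ |w * Uc w (l + 1)| + |Uc w l| := abs_sub _ _
        _ = |w| * |Uc w (l + 1)| + |Uc w l| := by rw [abs_mul]
        _ ≤ |w| * (|w| + 1) ^ (l + 1) + (|w| + 1) ^ l := by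
          have := mul_le_mul_of_nonneg_left h2 h0
          linarith
        _ ≤ (|w| + 1) ^ (l + 2) := by
          rw [pow_succ, pow_succ, pow_succ]
          nlinarith

/-- the generating function as a series of traces -/
theorem ZW_tsum {n M : ℕ} (hM : 0 < M) (w : ℝ) :
    ZW (2 * n) M w = 1 + ∑' l : ℕ, (Uc w (l + 2) - Uc 1 (l + 2)) * trW (2 * n) M (l + 2) := by
  have h1 := ZW_eq (2 * n) hM (L := 2 * n + 1) (by omega) w
  have h2 := ZW_eq (2 * n) hM (L := 2 * n + 1) (by omega) 1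
  rw [ZW_one] at h2
  have h3 : ∑' l : ℕ, (Uc w (l + 2) - Uc 1 (l + 2)) * trW (2 * n) M (l + 2) =
      ∑ l ∈ range (2 * n), (Uc w (l + 2) - Uc 1 (l + 2)) * trW (2 * n) M (l + 2) := by
    apply tsum_eq_sum
    intro l hl
    rw [mem_range] at hl
    rw [trW_big (by omega) hM, mul_zero]
  have h4 : ∀ v : ℝ, ∑ l ∈ range (2 * n + 1 + 1), Uc v l * trW (2 * n) M l =
      ∑ l ∈ range (2 * n), Uc v (l + 2) * trW (2 * n) M (l + 2) + trW (2 * n) M 0 := by
    intro v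
    rw [sum_range_succ', sum_range_succ', trW_par (l := 0 + 1) (by omega) hM]
    simp [Uc]
  rw [h4] at h1 h2
  rw [h3]
  simp only [sub_mul, sum_sub_distrib]
  rw [h1]
  linarith

/-- **the limit of the generating function exists** -/
theorem ZW_limit (H : Bd) : ∃ m : ℕ → ℕ → ℕ, ∀ x : ℝ, 0 < x →
    (∀ l, 2 ≤ l → Summable fun k : ℕ => m l k * rexp (-(2 * π * x * (hl l + k)))) ∧
    ∀ w : ℝ, (Summable fun l : ℕ => (Uc w (l + 2) - Uc 1 (l + 2)) *
        ∑' k : ℕ, m (l + 2) k * rexp (-(2 * π * x * (hl (l + 2) + k)))) ∧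
      ∀ (ι : Type) (F : Filter ι) (n M : ι → ℕ), Tendsto n F atTop →
        Tendsto (fun i => (M i : ℝ) / (2 * n i)) F (𝓝 x) →
        Tendsto (fun i => ZW (2 * n i) (M i) w) F (𝓝 (1 + ∑' l : ℕ, (Uc w (l + 2) - Uc 1 (l + 2)) *
          ∑' k : ℕ, m (l + 2) k * rexp (-(2 * π * x * (hl (l + 2) + k))))) := by
  have h0 : ∀ l : ℕ, ∃ m : ℕ → ℕ, 2 ≤ l → ∀ x : ℝ, 0 < x →
    Summable (fun k : ℕ => m k * rexp (-(2 * π * x * (hl l + k)))) ∧
      ∀ M : ℕ → ℕ, Tendsto (fun n => (M n : ℝ) / (2 * n)) atTop (𝓝 x) →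
        Tendsto (fun n => trW (2 * n) (M n) l) atTop (𝓝 (∑' k : ℕ, m k * rexp (-(2 * π * x * (hl l + k))))) := by
    intro l
    by_cases h : 2 ≤ l
    · obtain ⟨m, hm⟩ := trace_limit H h
      exact ⟨m, fun _ => hm⟩
    · exact ⟨fun _ => 0, fun h' => absurd h' h⟩
  choose m hm using h0
  refine ⟨m, fun x hx => ⟨fun l hl2 => (hm l hl2 x hx).1, fun w => ?_⟩⟩
  set g : ℕ → ℝ := fun l => (Uc w (l + 2) - Uc 1 (l + 2)) *
        ∑' k : ℕ, m (l + 2) k * rexp (-(2 * π * x * (hl (l + 2) + k))) with hg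
  set ρ : ℝ := 4 * (|w| + 2) with hρ
  have hw0 : 0 ≤ |w| := abs_nonneg w
  have hρ2 : 2 ≤ ρ := by rw [hρ]; linarith
  obtain ⟨C, n0, hC⟩ := H.bdd ρ (by linarith) (x / 2) (by positivity)
  set C' : ℝ := |C| + 1 with hC'
  set bound : ℕ → ℝ := fun l => 2 * C' * (1 / 2) ^ (l + 2) with hbound
  have hsum : Summable bound := by
    have h1 : Summable fun l : ℕ => ((1 : ℝ) / 2) ^ l := summable_geometric_two
    have h2 := (summable_nat_add_iff 2).2 h1
    exact h2.mul_left (2 * C')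
  have hr : ∀ l : ℕ, ((|w| + 1) ^ l + (|(1 : ℝ)| + 1) ^ l) * (2 / ρ) ^ l ≤ 2 * (1 / 2) ^ l := by
    intro l
    have e1 : (|w| + 1) * (2 / ρ) ≤ 1 / 2 := by
      rw [hρ, mul_div_assoc', div_le_iff₀ (by positivity)]
      linarith
    have e2 : (|(1 : ℝ)| + 1) * (2 / ρ) ≤ 1 / 2 := by
      rw [hρ, abs_one, mul_div_assoc', div_le_iff₀ (by positivity)]
      linarith
    have e3 : 0 ≤ (|w| + 1) * (2 / ρ) := by positivity
    have e4 : 0 ≤ (|(1 : ℝ)| + 1) * (2 / ρ) := by positivity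
    rw [add_mul, ← mul_pow, ← mul_pow]
    have := pow_le_pow_left₀ e3 e1 l
    have := pow_le_pow_left₀ e4 e2 l
    linarith
  have hdom : ∀ n M : ℕ, n0 ≤ n → 0 < M → x / 2 * (2 * n) ≤ M → ∀ l,
      ‖(Uc w (l + 2) - Uc 1 (l + 2)) * trW (2 * n) M (l + 2)‖ ≤ bound l := by
    intro n M hn hM hxM l
    have h1 : 0 ≤ trW (2 * n) M (l + 2) := trW_nonneg _ _ hM
    have h2 : trW (2 * n) M (l + 2) ≤ (2 / ρ) ^ (l + 2) * C' := by
      refine (trW_le hρ2 (2 * n) (l + 2) hM).trans ?_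
      apply mul_le_mul_of_nonneg_left _ (by positivity)
      refine (hC n M hn hxM).trans ?_
      rw [hC']
      have := le_abs_self C
      linarith
    have h3 : |Uc w (l + 2) - Uc 1 (l + 2)| ≤ (|w| + 1) ^ (l + 2) + (|(1 : ℝ)| + 1) ^ (l + 2) :=
      (abs_sub _ _).trans (add_le_add (abs_Uc_le w _) (abs_Uc_le 1 _))
    rw [Real.norm_eq_abs, abs_mul, abs_of_nonneg h1]
    have hC0 : 0 ≤ C' := by rw [hC']; positivity
    calc |Uc w (l + 2) - Uc 1 (l + 2)| * trW (2 * n) M (l + 2)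
        ≤ ((|w| + 1) ^ (l + 2) + (|(1 : ℝ)| + 1) ^ (l + 2)) * ((2 / ρ) ^ (l + 2) * C') :=
          mul_le_mul h3 h2 h1 (by positivity)
      _ = (((|w| + 1) ^ (l + 2) + (|(1 : ℝ)| + 1) ^ (l + 2)) * (2 / ρ) ^ (l + 2)) * C' := by ring
      _ ≤ (2 * (1 / 2) ^ (l + 2)) * C' := mul_le_mul_of_nonneg_right (hr _) hC0
      _ = bound l := by rw [hbound]; ring
  -- along sequences indexed by the size
  have hseq : ∀ M : ℕ → ℕ, Tendsto (fun n => (M n : ℝ) / (2 * n)) atTop (𝓝 x) →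
      (∀ᶠ n : ℕ in atTop, n0 ≤ n ∧ 0 < M n ∧ x / 2 * (2 * n) ≤ M n) := by
    intro M hM
    have h1 := hM.eventually (lt_mem_nhds (show x / 2 < x by linarith))
    filter_upwards [h1, eventually_ge_atTop n0, eventually_ge_atTop 1] with n h2 h3 h4
    have h5 : (0 : ℝ) < 2 * n := by
      have : (1 : ℝ) ≤ n := by exact_mod_cast h4
      linarith
    have h6 : x / 2 * (2 * n) < M n := by
      rwa [lt_div_iff₀ h5] at h2
    refine ⟨h3, ?_, h6.le⟩
    have h7 : (0 : ℝ) < M n := lt_trans (by positivity) h6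
    exact_mod_cast h7
  have hfl : Tendsto (fun a : ℕ => (⌊x * (2 * (a : ℝ))⌋₊ : ℝ) / (2 * a)) atTop (𝓝 x) := by
    have h2 : Tendsto (fun a : ℕ => (2 * (a : ℝ))) atTop atTop :=
      Tendsto.const_mul_atTop (by norm_num) tendsto_natCast_atTop_atTop
    have h3 := tendsto_nat_floor_mul_div_atTop (R := ℝ) hx.le
    exact h3.comp h2
  have hterm : ∀ M : ℕ → ℕ, Tendsto (fun n => (M n : ℝ) / (2 * n)) atTop (𝓝 x) → ∀ l,
      Tendsto (fun n => (Uc w (l + 2) - Uc 1 (l + 2)) * trW (2 * n) (M n) (l + 2)) atTop (𝓝 (g l)) :=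
    fun M hM l => ((hm (l + 2) (by omega) x hx).2 M hM).const_mul _
  have hgb : ∀ l, ‖g l‖ ≤ bound l := by
    intro l
    have h1 := (hterm _ hfl l).norm
    refine le_of_tendsto h1 ?_
    filter_upwards [hseq _ hfl] with n hn
    exact hdom n _ hn.1 hn.2.1 hn.2.2 l
  refine ⟨Summable.of_norm_bounded hsum hgb, ?_⟩
  intro ι F n M hn hM
  refine tendsto_of_seq (G := fun n M => ZW (2 * n) M w) hx ?_ hn hM
  intro M hM
  have h1 : Tendsto (fun n => 1 + ∑' l : ℕ, (Uc w (l + 2) - Uc 1 (l + 2)) * trW (2 * n) (M n) (l + 2)) atTop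
      (𝓝 (1 + ∑' l, g l)) := by
    apply Tendsto.const_add
    apply tendsto_tsum_of_dominated_convergence hsum (hterm M hM)
    filter_upwards [hseq M hM] with n hn
    exact hdom n _ hn.1 hn.2.1 hn.2.2
  refine h1.congr' ?_
  filter_upwards [hseq M hM] with n hn
  exact (ZW_tsum hn.2.1 w).symm

end H81Ann
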