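import Pool.Agent.Rect.Herm.SForm

/-!
# The height functionals on link patterns with any number of defects

For a pattern `f` on `N` strands, a constant `c` and heights `H : ℕ → ℤ`
`Kg c f N H = kap (c + ∑ H d) * ∏ kap (H (f s) - H s)`, the sum over the defects and the product over
the arcs `s < f s`.  `hfamL K c l : HFam (patSys.tower K) l` is the resulting family of functionals.
(Generalisation of helper41's `Rect/Herm/Inst.lean` from `l = 2`, `c = 1`.)
-/

set_option autoImplicit false

namespace H81Ann
open Pool.Agent.Rect.Herm
open Pool.Agent.Helper9.DR RectAlg Finset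

/-! ### the functional on functions -/

/-- the value of the functional with heights `H` on the pattern `f` with `N` strands -/
def Kg (c : ℤ) (f : ℕ → ℕ) (N : ℕ) (H : ℕ → ℤ) : ℤ :=
  kap (c + ∑ s ∈ range N, if f s = s then H s else 0) *
    ∏ s ∈ range N, if s < f s then kap (H (f s) - H s) else 1

theorem Kg_congr (c : ℤ) {f : ℕ → ℕ} {N : ℕ} {H H' : ℕ → ℤ} (hf : ∀ s, s < N → f s < N)
    (h : ∀ s, s < N → H s = H' s) : Kg c f N H = Kg c f N H' := by
  unfold Kg
  congr 1
  · congr 2
    refine sum_congr rfl fun s hs => ?_
    rw [h s (mem_range.1 hs)]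
  · refine prod_congr rfl fun s hs => ?_
    rw [h s (mem_range.1 hs), h (f s) (hf s (mem_range.1 hs))]

theorem Kg_cup (c : ℤ) {f : ℕ → ℕ} {N i : ℕ} (hi : i ≤ N) {H H' : ℕ → ℤ}
    (h : ∀ s, H' (up i s) = H s) :
    Kg c (cupF i f) (N + 2) H' = kap (H' (i + 1) - H' i) * Kg c f N H := by
  unfold Kg
  rw [sum_range_up hi, prod_range_up hi]
  simp only [cupF_i, cupF_i1, cupF_up, up_inj, h]
  rw [if_neg (by omega), if_neg (by omega), if_pos (by omega), if_neg (by omega)]
  have e : ∀ s, (up i s < up i (f s)) ↔ s < f s := fun s => by
    unfold up
    split_ifs <;> omega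
  simp only [e]
  rw [zero_add, zero_add]
  ring

/-- dependence on one height -/
theorem Kg_update (c : ℤ) {f : ℕ → ℕ} (hinv : ∀ s, f (f s) = s) {N i : ℕ} (hi : i < N)
    (hf : ∀ s, s < N → f s < N) (H : ℕ → ℤ) :
    ∃ A B e : ℤ, (e = 1 ∨ e = -1) ∧
      ∀ x, Kg c f N (Function.update H i x) = A * kap (B + e * x) := by
  rcases Nat.lt_trichotomy (f i) i with h1 | h1 | h1
  · -- `i` closes an arc
    have hj : f i ∈ range N := mem_range.2 (hf i hi)
    refine ⟨kap (c + ∑ s ∈ range N, if f s = s then H s else 0) *
      ∏ s ∈ (range N).erase (f i), if s < f s then kap (H (f s) - H s) else 1, -H (f i), 1,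
      Or.inl rfl, fun x => ?_⟩
    unfold Kg
    rw [← mul_prod_erase (range N) _ hj]
    rw [hinv i, if_pos h1, Function.update_self, Function.update_of_ne (by omega)]
    have e1 : ∑ s ∈ range N, (if f s = s then Function.update H i x s else 0) =
        ∑ s ∈ range N, if f s = s then H s else 0 := by
      refine sum_congr rfl fun s _ => ?_
      split_ifs with h2
      · rw [Function.update_of_ne]
        rintro rfl
        omega
      · rfl
    have e2 : ∏ s ∈ (range N).erase (f i), (if s < f s then
        kap (Function.update H i x (f s) - Function.update H i x s) else 1) =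
        ∏ s ∈ (range N).erase (f i), if s < f s then kap (H (f s) - H s) else 1 := by
      refine prod_congr rfl fun s hs => ?_
      split_ifs with h2
      · have h3 : s ≠ i := by
          rintro rfl
          omega
        have h4 : f s ≠ i := by
          rintro rfl
          rw [hinv] at hs
          exact (mem_erase.1 hs).1 rfl
        rw [Function.update_of_ne h3, Function.update_of_ne h4]
      · rfl
    rw [e1, e2, show -H (f i) + 1 * x = x - H (f i) by ring]
    ring
  · -- `i` is a defect
    have hj : i ∈ range N := mem_range.2 hi
    refine ⟨∏ s ∈ range N, if s < f s then kap (H (f s) - H s) else 1,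
      c + ∑ s ∈ (range N).erase i, (if f s = s then H s else 0), 1,
      Or.inl rfl, fun x => ?_⟩
    unfold Kg
    rw [← add_sum_erase (range N) _ hj]
    rw [if_pos h1, Function.update_self]
    have e1 : ∑ s ∈ (range N).erase i, (if f s = s then Function.update H i x s else 0) =
        ∑ s ∈ (range N).erase i, if f s = s then H s else 0 := by
      refine sum_congr rfl fun s hs => ?_
      rw [Function.update_of_ne (mem_erase.1 hs).1]
    have e2 : ∏ s ∈ range N, (if s < f s then
        kap (Function.update H i x (f s) - Function.update H i x s) else 1) =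
        ∏ s ∈ range N, if s < f s then kap (H (f s) - H s) else 1 := by
      refine prod_congr rfl fun s _ => ?_
      split_ifs with h2
      · have h3 : s ≠ i := by
          rintro rfl
          omega
        have h4 : f s ≠ i := by
          intro h5
          have := hinv s
          rw [h5, h1] at this
          exact h3 this.symm
        rw [Function.update_of_ne h3, Function.update_of_ne h4]
      · rfl
    rw [e1, e2, show (c + (x + ∑ s ∈ (range N).erase i, if f s = s then H s else 0)) =
      c + (∑ s ∈ (range N).erase i, if f s = s then H s else 0) + 1 * x by ring]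
    ring
  · -- `i` opens an arc
    have hj : i ∈ range N := mem_range.2 hi
    refine ⟨kap (c + ∑ s ∈ range N, if f s = s then H s else 0) *
      ∏ s ∈ (range N).erase i, if s < f s then kap (H (f s) - H s) else 1, H (f i), -1,
      Or.inr rfl, fun x => ?_⟩
    unfold Kg
    rw [← mul_prod_erase (range N) _ hj]
    rw [if_pos h1, Function.update_self, Function.update_of_ne (by omega)]
    have e1 : ∑ s ∈ range N, (if f s = s then Function.update H i x s else 0) =
        ∑ s ∈ range N, if f s = s then H s else 0 := by
      refine sum_congr rfl fun s _ => ?_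
      split_ifs with h2
      · rw [Function.update_of_ne]
        rintro rfl
        omega
      · rfl
    have e2 : ∏ s ∈ (range N).erase i, (if s < f s then
        kap (Function.update H i x (f s) - Function.update H i x s) else 1) =
        ∏ s ∈ (range N).erase i, if s < f s then kap (H (f s) - H s) else 1 := by
      refine prod_congr rfl fun s hs => ?_
      split_ifs with h2
      · have h3 : s ≠ i := (mem_erase.1 hs).1
        have h4 : f s ≠ i := by
          intro h5
          have := hinv s
          rw [h5] at this
          omega
        rw [Function.update_of_ne h3, Function.update_of_ne h4]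
      · rfl
    rw [e1, e2, show H (f i) + -1 * x = H (f i) - x by ring]
    ring

/-! ### lists of heights -/

variable (c : ℤ)


/-- the functional of a list of heights on patterns -/
def Fg (h : List ℤ) (f : Pat) : ℤ := Kg c f.fn h.length fun s => h.getD s 0

/-- the same on a pattern or zero -/
def Fq (h : List ℤ) (o : Option Pat) : ℤ := o.elim 0 (Fg c h)

@[simp] theorem Fq_none (h : List ℤ) : Fq c h none = 0 := rfl
@[simp] theorem Fq_some (h : List ℤ) (f : Pat) : Fq c h (some f) = Fg c h f := rfl

theorem Fg_slot {p q : List ℤ} {l : ℕ} {f : Pat} (hf : f ∈ Pat.PN (p.length + q.length + 1) l) :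
    ∃ A B e : ℤ, (e = 1 ∨ e = -1) ∧ ∀ x, Fg c (p ++ x :: q) f = A * kap (B + e * x) := by
  obtain ⟨A, B, e, he, h⟩ := Kg_update c (f := f.fn) f.inv (N := p.length + q.length + 1)
    (i := p.length) (by omega) (fun s hs => Pat.lt_of_mem hf hs)
    (fun s => (p ++ 0 :: q).getD s 0)
  refine ⟨A, B, e, he, fun x => ?_⟩
  rw [← h x]
  unfold Fg
  have e1 : (p ++ x :: q).length = p.length + q.length + 1 := by
    rw [List.length_append, List.length_cons]; omega
  rw [e1]
  congr 1
  funext s
  exact getD_slot p q 0 x s

theorem Fg_rec {p q : List ℤ} {l : ℕ} {f : Pat} (hf : f ∈ Pat.PN (p.length + q.length + 1) l)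
    (a : ℤ) : Fg c (p ++ (a + 1) :: q) f = Fg c (p ++ a :: q) f - Fg c (p ++ (a - 1) :: q) f := by
  obtain ⟨A, B, e, he, h⟩ := Fg_slot c hf
  rw [h, h, h]
  rcases he with rfl | rfl
  · have := kap_rec (B + 1 * a)
    rw [show B + 1 * (a + 1) = B + 1 * a + 1 by ring, show B + 1 * (a - 1) = B + 1 * a - 1 by ring,
      this]
    ring
  · have := kap_rec' (B + -1 * a)
    rw [show B + -1 * (a + 1) = B + -1 * a - 1 by ring,
      show B + -1 * (a - 1) = B + -1 * a + 1 by ring, this]
    ring

theorem Fg_cup {p q : List ℤ} {f : Pat} (a b : ℤ) :
    Fg c (p ++ a :: b :: q) (Pat.c p.length f) = kap (b - a) * Fg c (p ++ q) f := by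
  unfold Fg
  have e1 : (p ++ a :: b :: q).length = (p ++ q).length + 2 := by
    rw [List.length_append, List.length_append, List.length_cons, List.length_cons]; omega
  rw [e1, Pat.fn_c, Kg_cup c (H := fun s => (p ++ q).getD s 0)
    (by rw [List.length_append]; omega) (fun s => getD_up p q a b s)]
  congr 3
  · rw [List.getD_append_right _ _ _ _ (by omega)]
    have : p.length + 1 - p.length = 0 + 1 := by omega
    rw [this, List.getD_cons_succ, List.getD_cons_zero]
  · rw [List.getD_append_right _ _ _ _ (by omega), Nat.sub_self, List.getD_cons_zero]

theorem Fq_cup {p q : List ℤ} {o : Option Pat} (a b : ℤ) :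
    Fq c (p ++ a :: b :: q) (o.map (Pat.c p.length)) = kap (b - a) * Fq c (p ++ q) o := by
  cases o with
  | none => simp
  | some f => simp only [Option.map_some, Fq_some, Fg_cup]

theorem sum_getD (h : List ℤ) : ∑ s ∈ range h.length, h.getD s 0 = h.sum := by
  induction h with
  | nil => simp
  | cons a l ih =>
    rw [List.length_cons, sum_range_succ', List.sum_cons, ← ih, add_comm]
    simp

theorem Fg_vac (h : List ℤ) : Fg c h Pat.vac = kap (c + h.sum) := by
  unfold Fg Kg
  simp only [Pat.fn_vac, id, if_true, lt_irrefl, if_false, prod_const_one, mul_one]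
  rw [sum_getD]

theorem Fg_cap {l : ℕ} (hl2 : 2 ≤ l) : ∀ (N : ℕ) (f : Pat), f ∈ Pat.PN (N + 2) l → ∀ (p q : List ℤ) (g : ℤ),
    p.length + q.length = N →
    Fq c (p ++ q) (Pat.k p.length f) =
      Fg c (p ++ g :: g :: q) f - Fg c (p ++ (g - 1) :: (g + 1) :: q) f := by
  intro N
  induction N using Nat.strong_induction_on with
  | _ N ih =>
    intro f hf p q g hpq
    rcases Pat.PNind hf with ⟨h1, rfl, _⟩ | ⟨M, g', j, h1, hj, hg', rfl⟩
    · rw [Pat.k_vac, Fq_none, Fg_vac, Fg_vac]
      have e : (p ++ g :: g :: q).sum = (p ++ (g - 1) :: (g + 1) :: q).sum := by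
        simp only [List.sum_append, List.sum_cons]
        ring
      rw [e, sub_self]
    · have hM : M = N := by omega
      subst hM
      have hM2 : 2 ≤ M := hl2.trans (Pat.mem_PN.1 hg').le
      obtain ⟨M', rfl⟩ : ∃ M', M = M' + 2 := ⟨M - 2, by omega⟩
      rcases Nat.lt_trichotomy p.length j with h2 | h2 | h2
      · rcases Nat.lt_or_ge (p.length + 1) j with h3 | h3
        · -- the cup is far to the right
          obtain ⟨t, rfl⟩ : ∃ t, j = p.length + t + 2 := ⟨j - p.length - 2, by omega⟩
          obtain ⟨q1, q', rfl, hq1⟩ : ∃ q1 q', q = q1 ++ q' ∧ q1.length = t :=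
            ⟨q.take t, q.drop t, (List.take_append_drop t q).symm,
              List.length_take_of_le (by omega)⟩
          rw [List.length_append] at hpq
          obtain ⟨a, q2, rfl⟩ : ∃ a q2, q' = a :: q2 := by
            cases q' with
            | nil => simp only [List.length_nil] at hpq; omega
            | cons a q2 => exact ⟨a, q2, rfl⟩
          obtain ⟨b, q2, rfl⟩ : ∃ b q3, q2 = b :: q3 := by
            cases q2 with
            | nil => simp only [List.length_nil, List.length_cons] at hpq; omega
            | cons b q3 => exact ⟨b, q3, rfl⟩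
          rw [List.length_cons, List.length_cons] at hpq
          rw [Pat.k_c_gt (by omega)]
          have hl1 : (p ++ q1).length = p.length + t := by rw [List.length_append, hq1]
          have hl2 : ∀ x y : ℤ, (p ++ x :: y :: q1).length = p.length + t + 2 := fun x y => by
            rw [List.length_append, List.length_cons, List.length_cons, hq1]; omega
          have e1 : Fq c (p ++ (q1 ++ a :: b :: q2)) ((Pat.k p.length g').map (Pat.c (p.length + t))) =
              kap (b - a) * Fq c (p ++ (q1 ++ q2)) (Pat.k p.length g') := by
            have := Fq_cup c (p := p ++ q1) (q := q2) (o := Pat.k p.length g') a b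
            rw [hl1] at this
            simpa only [List.append_assoc] using this
          have e2 : ∀ x y : ℤ, Fg c (p ++ x :: y :: (q1 ++ a :: b :: q2))
              (Pat.c (p.length + t + 2) g') = kap (b - a) * Fg c (p ++ x :: y :: (q1 ++ q2)) g' := by
            intro x y
            have := Fg_cup c (p := p ++ x :: y :: q1) (q := q2) (f := g') a b
            rw [hl2] at this
            simpa only [List.append_assoc, List.cons_append] using this
          have e3 := ih M' (by omega) g' hg' p (q1 ++ q2) g (by rw [List.length_append]; omega)
          rw [e1, e2, e2, e3]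
          ring
        · -- the cup is at `i + 1`
          have hj1 : j = p.length + 1 := by omega
          subst hj1
          obtain ⟨x, q', rfl⟩ : ∃ a q2, q = a :: q2 := by
            cases q with
            | nil => simp only [List.length_nil] at hpq; omega
            | cons a q2 => exact ⟨a, q2, rfl⟩
          rw [Pat.kcr, Fq_some]
          have e2 : ∀ y z : ℤ, Fg c (p ++ y :: z :: x :: q') (Pat.c (p.length + 1) g') =
              kap (x - z) * Fg c (p ++ y :: q') g' := by
            intro y z
            have := Fg_cup c (p := p ++ [y]) (q := q') (f := g') z x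
            simpa only [List.append_assoc, List.cons_append, List.nil_append, List.length_append,
              List.length_singleton] using this
          rw [e2, e2]
          have hl : g' ∈ Pat.PN (p.length + q'.length + 1) l := by
            rw [List.length_cons] at hpq
            rw [show p.length + q'.length + 1 = M' + 2 by omega]
            exact hg'
          have := rec_solve (φ := fun y => Fg c (p ++ y :: q') g') (fun a => Fg_rec c hl a) g x
          rw [this, show x - (g + 1) = x - g - 1 by ring]
      · -- the cup is at `i`
        subst h2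
        rw [Pat.kc, Fq_some, Fg_cup, Fg_cup, sub_self, show g + 1 - (g - 1) = 2 by ring, kap_zero,
          kap_two]
        ring
      · rcases Nat.lt_or_ge (j + 1) p.length with h3 | h3
        · -- the cup is far to the left
          obtain ⟨p1, p', rfl, hp1⟩ : ∃ p1 p', p = p1 ++ p' ∧ p1.length = j :=
            ⟨p.take j, p.drop j, (List.take_append_drop j p).symm,
              List.length_take_of_le (by omega)⟩
          subst hp1
          rw [List.length_append] at hpq h2 h3
          obtain ⟨a, p2, rfl⟩ : ∃ a q2, p' = a :: q2 := by
            cases p' with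
            | nil => simp only [List.length_nil] at h2; omega
            | cons a q2 => exact ⟨a, q2, rfl⟩
          obtain ⟨b, p2, rfl⟩ : ∃ b q3, p2 = b :: q3 := by
            cases p2 with
            | nil => simp only [List.length_nil, List.length_cons] at h3; omega
            | cons b q3 => exact ⟨b, q3, rfl⟩
          rw [List.length_cons, List.length_cons] at hpq
          have hl : (p1 ++ a :: b :: p2).length = p1.length + p2.length + 2 := by
            rw [List.length_append, List.length_cons, List.length_cons]; omega
          rw [hl, Pat.k_c_lt (by omega)]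
          have e1 : Fq c (p1 ++ a :: b :: p2 ++ q)
              ((Pat.k (p1.length + p2.length) g').map (Pat.c p1.length)) =
              kap (b - a) * Fq c (p1 ++ p2 ++ q) (Pat.k (p1.length + p2.length) g') := by
            have := Fq_cup c (p := p1) (q := p2 ++ q) (o := Pat.k (p1.length + p2.length) g') a b
            simpa only [List.append_assoc, List.cons_append] using this
          have e2 : ∀ x y : ℤ, Fg c (p1 ++ a :: b :: p2 ++ x :: y :: q)
              (Pat.c p1.length g') = kap (b - a) * Fg c (p1 ++ p2 ++ x :: y :: q) g' := by
            intro x y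
            have := Fg_cup c (p := p1) (q := p2 ++ x :: y :: q) (f := g') a b
            simpa only [List.append_assoc, List.cons_append] using this
          have e3 := ih M' (by omega) g' hg' (p1 ++ p2) q g (by rw [List.length_append]; omega)
          rw [List.length_append] at e3
          rw [e1, e2, e2, e3]
          ring
        · -- the cup is at `i - 1`
          have hj1 : p.length = j + 1 := by omega
          obtain ⟨p', x, rfl⟩ : ∃ p' x, p = p' ++ [x] := by
            rcases List.eq_nil_or_concat p with rfl | ⟨p', x, h⟩
            · simp at hj1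
            · exact ⟨p', x, by rw [h, List.concat_eq_append]⟩
          rw [List.length_append, List.length_singleton] at hj1 hpq
          have hj2 : j = p'.length := by omega
          subst hj2
          rw [List.length_append, List.length_singleton, Pat.kcl, Fq_some]
          have e2 : ∀ y z : ℤ, Fg c (p' ++ [x] ++ y :: z :: q) (Pat.c p'.length g') =
              kap (y - x) * Fg c (p' ++ z :: q) g' := by
            intro y z
            have := Fg_cup c (p := p') (q := z :: q) (f := g') x y
            simpa only [List.append_assoc, List.cons_append, List.nil_append] using this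
          rw [e2, e2]
          have hl : g' ∈ Pat.PN (p'.length + q.length + 1) l := by
            rw [show p'.length + q.length + 1 = M' + 2 by omega]
            exact hg'
          have := rec_solve' (φ := fun y => Fg c (p' ++ y :: q) g') (fun a => Fg_rec c hl a) g x
          have e4 : p' ++ [x] ++ q = p' ++ x :: q := by simp
          rw [e4, this]

/-! ### the family of functionals -/

variable (K : Type*) [Field K]

/-- the linear functional -/
noncomputable def FG (h : List ℤ) : (Pat →₀ K) →ₗ[K] K :=
  Finsupp.linearCombination K fun f => (Fg c h f : K)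

@[simp] theorem FG_single (h : List ℤ) (f : Pat) (a : K) :
    FG c K h (Finsupp.single f a) = a * (Fg c h f : K) := by
  rw [FG, Finsupp.linearCombination_single, smul_eq_mul]

theorem FG_toV (h : List ℤ) (o : Option Pat) : FG c K h (_root_.Rect.Alg.toV K o) = (Fq c h o : K) := by
  cases o with
  | none => simp
  | some g => simp

/-- the height functionals on the patterns with `l` defects -/
noncomputable def hfamL {l : ℕ} (hl2 : 2 ≤ l) : HFam (patSys.tower K) l where
  W N := patSys.W K N l
  F := FG c K
  c_mem hv hi := patSys.c_mem K hi hv
  k_mem hv hi := patSys.k_mem K hi hv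
  rec' p q a v hv := by
    have := eq_on_W K (N := p.length + q.length + 1) (l := l) (A := FG c K (p ++ (a + 1) :: q))
      (B := FG c K (p ++ a :: q) - FG c K (p ++ (a - 1) :: q)) (fun f hf => by
        rw [LinearMap.sub_apply, FG_single, FG_single, FG_single, Fg_rec c hf]
        push_cast
        ring) hv
    rw [this, LinearMap.sub_apply]
  cup p q a b v hv := by
    have := eq_on_W K (N := p.length + q.length) (l := l)
      (A := FG c K (p ++ a :: b :: q) ∘ₗ (patSys.tower K).c p.length)
      (B := (kap (b - a) : K) • FG c K (p ++ q)) (fun f _ => by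
        rw [LinearMap.comp_apply, patSys.tower_c, LinearMap.smul_apply, FG_single, FG_single]
        change 1 * ((Fg c (p ++ a :: b :: q) (Pat.c p.length f) : ℤ) : K) = _
        rw [Fg_cup, smul_eq_mul]
        push_cast
        ring) hv
    rw [LinearMap.comp_apply, LinearMap.smul_apply, smul_eq_mul] at this
    exact this
  cap p q g v hv := by
    have := eq_on_W K (N := p.length + q.length + 2) (l := l)
      (A := FG c K (p ++ q) ∘ₗ (patSys.tower K).k p.length)
      (B := FG c K (p ++ g :: g :: q) - FG c K (p ++ (g - 1) :: (g + 1) :: q)) (fun f hf => by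
        rw [LinearMap.comp_apply, patSys.tower_k, one_smul, FG_toV, LinearMap.sub_apply,
          FG_single, FG_single]
        change ((Fq c (p ++ q) (Pat.k p.length f) : ℤ) : K) = _
        rw [Fg_cap c hl2 _ f hf p q g rfl]
        push_cast
        ring) hv
    rw [LinearMap.comp_apply, LinearMap.sub_apply] at this
    exact this
  gen k v hv := by
    rw [_root_.Rect.Alg.PatSys.W_eq_span] at hv
    refine Submodule.span_mono ?_ hv
    rintro _ ⟨f, hf, rfl⟩
    rcases Pat.PNind (show f ∈ Pat.PN (l + 2 * (k + 1)) l from hf) with ⟨h1, _⟩ | ⟨M, g, i, h1, h2, h3, rfl⟩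
    · omega
    · have hM : M = l + 2 * k := by omega
      subst hM
      refine ⟨i, Finsupp.single g 1, h2, patSys.single_mem_W K h3 1, ?_⟩
      exact (patSys.tower_c K i g 1).symm

theorem hfamL_W {l : ℕ} (hl2 : 2 ≤ l) (N : ℕ) : (hfamL c K hl2).W N = patSys.W K N l := rfl

theorem hfamL_F_single {l : ℕ} (hl2 : 2 ≤ l) (h : List ℤ) (f : Pat) :
    (hfamL c K hl2).F h (Finsupp.single f 1) = (Fg c h f : K) := by
  change FG c K h _ = _
  rw [FG_single, one_mul]

end H81Ann
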