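import Pool.Agent.Helper81.Ann.HInst

/-!
# The hidden scalar product on the link patterns with `l ≥ 2` defects

With the constant `cl l = 0 + 1 + ... + (l - 1)` the height functionals separate the vectors of `W N l`.
Hence `S_l` is positive definite and the double row matrix `D(p)` is self adjoint and positive for it.
(Generalisation of helper41's `Rect/Herm/SForm.lean`.)
-/

set_option autoImplicit false

namespace H81Ann
open Pool.Agent.Rect.Herm
open Pool.Agent.Helper9.DR RectAlg Finset

/-- the constant -/
def cl (l : ℕ) : ℤ := ∑ i ∈ range l, (i : ℤ)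

theorem Kg_hP_cup (c : ℤ) {f : ℕ → ℕ} {N i : ℕ} (hi : i ≤ N) (P : ℕ → ℤ) :
    Kg c (cupF i f) (N + 2) (hP P) = kap (2 * (P (i + 1) - P i) - 1) * Kg c f N (hP (rmP i P)) := by
  rw [Kg_cup c hi (hP_up i P)]
  congr 2
  unfold hP
  push_cast
  ring

/-- **triangularity** -/
theorem Kg_ne_zero_le (c : ℤ) {l N : ℕ} {f : Pat} (h : Pat.Gn l N f) : ∀ {P : ℕ → ℤ} {D : ℤ},
    (∀ s, s + 1 < N → P s ≤ P (s + 1)) → (∀ s, s < N → P s ≤ opn f.fn N + D) →
    Kg c f.fn N (hP P) ≠ 0 → ∀ s, s < N → P s ≤ opn f.fn s + D := by
  induction h with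
  | base =>
    intro P D _ h2 _ s hs
    have e : ∀ s, opn Pat.vac.fn s = 0 := fun s => by
      unfold opn
      refine Finset.sum_eq_zero fun t _ => ?_
      rw [Pat.fn_vac, if_neg (by simp)]
    have := h2 s hs
    rw [e] at this ⊢
    exact this
  | @cup N i f hf hi ih =>
    intro P D h1 h2 h3
    rw [Pat.fn_c, Kg_hP_cup c hi] at h3
    have h4 : P i + 1 ≤ P (i + 1) := by
      have h5 := h1 i (by omega)
      rcases lt_or_eq_of_le h5 with h6 | h6
      · omega
      · exfalso
        apply h3
        rw [h6, sub_self, mul_zero, zero_sub, kap_neg_one, zero_mul]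
    rw [Pat.fn_c, opn_cup_add _ hi] at h2
    have hmono : ∀ s t, s ≤ t → t < N + 2 → P s ≤ P t := by
      intro s t hst
      induction t, hst using Nat.le_induction with
      | base => intro _; exact le_rfl
      | succ t _ ih2 => intro h5; exact (ih2 (by omega)).trans (h1 t (by omega))
    have key := ih (P := rmP i P) (D := D) (by
      intro s hs
      unfold rmP
      split_ifs with h5 h6 h6
      · exact h1 s (by omega)
      · have h7 := hmono s i (by omega) (by omega)
        have h8 := hmono (i + 1) (s + 1 + 2) (by omega) (by omega)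
        omega
      · omega
      · have := h1 (s + 2) (by omega)
        rw [show s + 1 + 2 = s + 2 + 1 by ring]
        omega) (by
      intro s hs
      unfold rmP
      split_ifs with h5
      · have h7 := hmono s i (by omega) (by omega)
        have h8 := h2 (i + 1) (by omega)
        omega
      · have h8 := h2 (s + 2) (by omega)
        omega) (right_ne_zero_of_mul h3)
    intro s hs
    rw [Pat.fn_c]
    rcases Nat.lt_or_ge s i with h5 | h5
    · rw [opn_cup_le _ h5.le]
      have := key s (by omega)
      unfold rmP at this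
      rwa [if_pos h5] at this
    · rcases Nat.lt_or_ge s (i + 2) with h6 | h6
      · -- the strands of the arc
        have hX : P (i + 1) ≤ opn f.fn i + 1 + D := by
          rcases Nat.lt_or_ge i N with h7 | h7
          · have h8 := key i h7
            unfold rmP at h8
            rw [if_neg (lt_irrefl i)] at h8
            have h9 := h1 (i + 1) (by omega)
            rw [show i + 1 + 1 = i + 2 by ring] at h9
            omega
          · have h8 := h2 (i + 1) (by omega)
            have : i = N := by omega
            subst this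
            exact h8
        rcases Nat.lt_or_ge s (i + 1) with h7 | h7
        · have : s = i := by omega
          subst this
          rw [opn_cup_le _ le_rfl]
          omega
        · have : s = i + 1 := by omega
          subst this
          rw [opn_cup_succ]
          exact hX
      · obtain ⟨t, rfl⟩ : ∃ t, s = t + 2 := ⟨s - 2, by omega⟩
        rw [opn_cup_add _ (by omega)]
        have h7 := key t (by omega)
        unfold rmP at h7
        rw [if_neg (by omega)] at h7
        omega

theorem opn_id (s : ℕ) : opn (id : ℕ → ℕ) s = 0 := by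
  unfold opn
  refine Finset.sum_eq_zero fun t _ => ?_
  rw [if_neg (by simp)]

/-- the diagonal -/
theorem Kg_opn {l N : ℕ} {f : Pat} (h : Pat.Gn l N f) : Kg (cl l) f.fn N (hP (opn f.fn)) = 1 := by
  induction h with
  | base =>
    unfold Kg hP cl
    simp only [Pat.fn_vac, id, if_true, lt_irrefl, if_false, prod_const_one, mul_one]
    have e : ∑ s ∈ range l, (2 * opn id s - (s : ℤ)) = -∑ s ∈ range l, (s : ℤ) := by
      rw [← sum_neg_distrib]
      refine sum_congr rfl fun s _ => ?_
      rw [opn_id]
      ring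
    rw [e, add_neg_cancel, kap_zero]
  | @cup N i f hf hi ih =>
    have e : rmP i (opn (Pat.c i f).fn) = opn f.fn := by
      funext s
      unfold rmP
      rw [Pat.fn_c]
      split_ifs with h1
      · exact opn_cup_le _ h1.le
      · rw [opn_cup_add _ (by omega)]
        ring
    rw [show (Pat.c i f).fn = cupF i f.fn from rfl] at e ⊢
    rw [Kg_hP_cup _ hi, e, ih, opn_cup_succ, opn_cup_le _ le_rfl,
      show 2 * (opn f.fn i + 1 - opn f.fn i) - 1 = 1 by ring, kap_one, mul_one]

theorem Fg_eq (c : ℤ) {l : ℕ} (x : List Bool) {f : Pat} (hf : f ∈ Pat.PN (x.length + 1) l) :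
    Fg c (0 :: hs 0 x) f = Kg c f.fn (x.length + 1) (hP fun s => cnt (x.take s)) := by
  unfold Fg
  rw [List.length_cons, hs_length]
  refine Kg_congr c (fun s hs' => Pat.lt_of_mem hf hs') fun s hs' => ?_
  rw [getD_hs x 0 s (by omega)]
  unfold hP
  ring

theorem opn_top' {l N : ℕ} {f : Pat} (h : f ∈ Pat.PN (N + 1) l) :
    l + 2 * opn f.fn N = N + 1 := by
  have h1 := (Pat.mem_PN.1 h).opn_total
  rw [opn_succ, if_neg (last_not_open h)] at h1
  push_cast at h1
  linarith

/-- the functional of the openings of `f` on `f` -/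
theorem Fg_ox_self {l m : ℕ} {f : Pat} (hf : f ∈ Pat.PN (m + 1) l) :
    Fg (cl l) (0 :: hs 0 (ox f.fn m)) f = 1 := by
  have hf' : f ∈ Pat.PN ((ox f.fn m).length + 1) l := by rwa [ox_length]
  rw [Fg_eq _ _ hf', ox_length, ← Kg_opn (Pat.mem_PN.1 hf)]
  refine Kg_congr _ (fun s hs' => Pat.lt_of_mem hf hs') fun s hs' => ?_
  unfold hP
  beta_reduce
  rw [ox_take _ (by omega), cnt_ox]

/-- triangularity for bits -/
theorem Fg_ne_zero_le (c : ℤ) {l : ℕ} {x : List Bool} {f : Pat} (hf : f ∈ Pat.PN (x.length + 1) l)
    (hc : l + 2 * cnt x = x.length + 1) (h : Fg c (0 :: hs 0 x) f ≠ 0) :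
    ∀ s, s ≤ x.length → (cnt (x.take s) : ℤ) ≤ opn f.fn s := by
  intro s hs'
  rw [Fg_eq c x hf] at h
  have h1 := opn_top' hf
  have := Kg_ne_zero_le c (Pat.mem_PN.1 hf) (P := fun s => cnt (x.take s)) (D := 0)
    (fun s hs' => cnt_take_mono x (by omega)) (fun s _ => by
      have h2 := cnt_take_le x s
      have h3 := opn_mono f.fn (Nat.le_succ x.length)
      have h4 : (cnt (x.take s) : ℤ) ≤ cnt x := by exact_mod_cast h2
      have h5 : (l : ℤ) + 2 * cnt x = x.length + 1 := by exact_mod_cast hc
      rw [Nat.succ_eq_add_one] at h3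
      linarith) h s (by omega)
  simpa using this

/-- **the functionals separate the vectors** -/
theorem inj_Wl (K : Type*) [Field K] [CharZero K] {l : ℕ} (hl2 : 2 ≤ l) {m k : ℕ} (hm : m + 1 = l + 2 * k)
    {v : Pat →₀ K} (hv : v ∈ patSys.W K (m + 1) l)
    (h : ∀ x : List Bool, x.length = m → cnt x = k → (hfamL (cl l) K hl2).Fn 0 x v = 0) : v = 0 := by
  classical
  by_contra hne
  have hmem : ∀ f ∈ v.support, f ∈ Pat.PN (m + 1) l := fun f hf =>
    (patSys.mem_W K).1 hv f (Finsupp.mem_support_iff.1 hf)
  obtain ⟨w, hw, hmax⟩ := Finset.exists_max_image v.support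
    (fun f => ∑ s ∈ range (m + 1), opn f.fn s) (Finsupp.support_nonempty_iff.2 hne)
  have hwP := hmem w hw
  have hcw : cnt (ox w.fn m) = k := by
    have h1 := opn_top' hwP
    rw [← cnt_ox] at h1
    have h2 : (m : ℤ) + 1 = l + 2 * k := by exact_mod_cast hm
    have : (cnt (ox w.fn m) : ℤ) = k := by linarith
    exact_mod_cast this
  have hval : (hfamL (cl l) K hl2).Fn 0 (ox w.fn m) v = v w := by
    change FG (cl l) K (0 :: hs 0 (ox w.fn m)) v = v w
    rw [FG, Finsupp.linearCombination_apply, Finsupp.sum, Finset.sum_eq_single w]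
    · rw [Fg_ox_self hwP]
      simp
    · intro f hf hfw
      have hfP := hmem f hf
      by_contra hF
      have hF' : Fg (cl l) (0 :: hs 0 (ox w.fn m)) f ≠ 0 := by
        intro h0
        apply hF
        rw [h0]
        simp
      have hfP' : f ∈ Pat.PN ((ox w.fn m).length + 1) l := by rwa [ox_length]
      have hle := Fg_ne_zero_le _ hfP' (by rw [ox_length, hcw]; omega) hF'
      rw [ox_length] at hle
      have hle' : ∀ s ∈ range (m + 1), opn w.fn s ≤ opn f.fn s := fun s hs' => by
        have hs2 : s ≤ m := by have := mem_range.1 hs'; omega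
        have := hle s hs2
        rwa [ox_take _ hs2, cnt_ox] at this
      have heq := (Finset.sum_eq_sum_iff_of_le hle').1
        (le_antisymm (Finset.sum_le_sum hle') (hmax f hf))
      apply hfw
      refine (Pat.mem_PN.1 hfP).ext_opn (Pat.mem_PN.1 hwP) fun s hs' => ?_
      rcases Nat.lt_or_ge s (m + 1) with h1 | h1
      · exact (heq s (mem_range.2 h1)).symm
      · have : s = m + 1 := by omega
        subst this
        rw [opn_succ, opn_succ, if_neg (last_not_open hfP), if_neg (last_not_open hwP),
          heq m (mem_range.2 (by omega))]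
    · intro h0
      rw [Finsupp.notMem_support_iff.1 h0]
      simp
  rw [h _ (ox_length _ _) hcw] at hval
  exact (Finsupp.mem_support_iff.1 hw) hval.symm

/-- **the hidden scalar product is positive definite** -/
theorem Sl_pos {l : ℕ} (hl2 : 2 ≤ l) {m k : ℕ} (hm : m + 1 = l + 2 * k) {v : Pat →₀ ℝ}
    (hv : v ∈ patSys.W ℝ (m + 1) l) (hne : v ≠ 0) : 0 < (hfamL (cl l) ℝ hl2).Sf m k v v := by
  refine lt_of_le_of_ne ((hfamL (cl l) ℝ hl2).Sf_nonneg m k v) fun h0 => hne ?_
  exact inj_Wl ℝ hl2 hm hv fun x hl hc => (hfamL (cl l) ℝ hl2).Sf_eq_zero h0.symm x hl hc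

end H81Ann
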