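import Pool.Agent.Helper81.Ann.BdOf
import Pool.Agent.Helper81.Ann.Final
import Pool.Agent.Helper32.Ann.Dual

/-!
# ANNULUS: the limit law of the number of loops around a cylinder
-/

set_option autoImplicit false

namespace H81Ann
open Ann32 RectAlg Filter Topology Real
open Finset hiding ext

theorem colT_sub {S : Finset (ℕ × ℕ)} {N y0 y1 : ℕ} : colT (tS S) 1 N y0 y1 ⊆ S ∩ sl N y0 y1 := by
  rintro ⟨y, x⟩ h
  unfold colT at h
  rw [mem_filter, mem_RT] at h
  obtain ⟨h1, h2⟩ := h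
  rw [mem_inter, mem_sl]
  refine ⟨?_, h1⟩
  unfold tS at h2
  simp only [decide_eq_true_eq] at h2
  tauto

theorem disjArms : DisjArms := by
  classical
  intro n M y0 y1 hM h01 h1 S _
  obtain ⟨T, h2, h3, h4⟩ := slab_arms (N := 2 * n) (by omega) hM (tS S) (y0 := y0) (y1 := y1) h01.le (by omega)
  refine ⟨range (Wn (2 * n) M (tS S) / 2),
    fun i => if h : i < Wn (2 * n) M (tS S) / 2 then T ⟨i, h⟩ else ∅, card_range _, ?_, ?_⟩
  · intro i hi
    rw [mem_range] at hi
    simp only [dif_pos hi]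
    exact ⟨(h2 _).trans colT_sub, h4 _⟩
  · intro i hi k hk hik
    rw [mem_range] at hi hk
    simp only [dif_pos hi, dif_pos hk]
    exact h3 _ _ fun h => hik (by simpa using congrArg Fin.val h)

theorem bd : Bd := bd_of disjArms

/-- **the annulus theorem**: the limit law of the number of non contractible loops -/
theorem annulus : ∃ m : ℕ → ℕ → ℕ, ∀ x : ℝ, 0 < x →
    (∀ l, 2 ≤ l → Summable fun k : ℕ => m l k * rexp (-(2 * π * x * (hl l + k)))) ∧
    ∀ w : ℝ, (Summable fun l : ℕ => (Uc w (l + 2) - Uc 1 (l + 2)) *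
        ∑' k : ℕ, m (l + 2) k * rexp (-(2 * π * x * (hl (l + 2) + k)))) ∧
      ∀ (ι : Type) (F : Filter ι) (n M : ι → ℕ), Tendsto n F atTop →
        Tendsto (fun i => (M i : ℝ) / (2 * n i)) F (𝓝 x) →
        Tendsto (fun i => ZW (2 * n i) (M i) w) F (𝓝 (1 + ∑' l : ℕ, (Uc w (l + 2) - Uc 1 (l + 2)) *
          ∑' k : ℕ, m (l + 2) k * rexp (-(2 * π * x * (hl (l + 2) + k))))) := ZW_limit bd

end H81Ann
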