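import Pool.Agent.Helper81.Ann.Couple

/-!
# ANNULUS: the traces do not decrease with the width
-/

set_option autoImplicit false

namespace H81Ann
open Ann32
open Finset hiding ext

/-- the configuration without the first two columns -/
def res {N M : ℕ} (ω : Cfg (N + 2) M) : Cfg N M := fun y x => ω y ⟨x.1 + 2, by omega⟩

theorem ext_res {N M : ℕ} (ω : Cfg (N + 2) M) : ext (res ω) = shf (ext ω) := by
  funext y x
  unfold shf ext res
  by_cases h : y < 2 * M ∧ x < N
  · rw [dif_pos h, dif_pos ⟨h.1, by omega⟩]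
  · rw [dif_neg h, dif_neg (by
      rintro ⟨h1, h2⟩
      exact h ⟨h1, by omega⟩)]

/-- a configuration is its restriction and its first two columns -/
def resEquiv (N M : ℕ) : Cfg (N + 2) M ≃ Cfg N M × (Fin (2 * M) → Fin 2 → Bool) where
  toFun ω := (res ω, fun y j => ω y ⟨j.1, by omega⟩)
  invFun p := fun y x => if h : x.1 < 2 then p.2 y ⟨x.1, h⟩ else p.1 y ⟨x.1 - 2, by omega⟩
  left_inv ω := by
    funext y x
    simp only [res]
    split_ifs with h
    · rfl
    · congr 1
      apply Fin.ext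
      simp only
      omega
  right_inv p := by
    refine Prod.ext ?_ ?_
    · funext y x
      simp [res]
    · funext y j
      have := j.2
      simp [this]

theorem sum_res {N M : ℕ} (F : Cfg N M → ℝ) :
    ∑ ω : Cfg (N + 2) M, F (res ω) = 2 ^ (4 * M) * ∑ ω : Cfg N M, F ω := by
  have h1 : ∑ ω : Cfg (N + 2) M, F (res ω) =
      ∑ p : Cfg N M × (Fin (2 * M) → Fin 2 → Bool), F p.1 :=
    Fintype.sum_equiv (resEquiv N M) _ _ fun ω => rfl
  rw [h1, Fintype.sum_prod_type]
  simp only [sum_const, card_univ, Fintype.card_fun, Fintype.card_fin, Fintype.card_bool, nsmul_eq_mul]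
  rw [← mul_sum]
  congr 1
  push_cast
  rw [show (4 : ℝ) = 2 ^ 2 by norm_num, ← pow_mul]
  congr 1
  ring

/-- the uniform expectation is monotone under the restriction -/
theorem Ex_mono {N M : ℕ} {F : Cfg N M → ℝ} {G : Cfg (N + 2) M → ℝ} (h : ∀ ω, F (res ω) ≤ G ω) :
    Ex N M F ≤ Ex (N + 2) M G := by
  have h1 : 2 ^ (4 * M) * ∑ ω : Cfg N M, F ω ≤ ∑ ω : Cfg (N + 2) M, G ω := by
    rw [← sum_res]
    exact sum_le_sum fun ω _ => h ω
  unfold Ex
  have e : (2 : ℝ) ^ (2 * M * (N + 2)) = 2 ^ (4 * M) * 2 ^ (2 * M * N) := by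
    rw [← pow_add]
    congr 1
    ring
  rw [e, div_le_div_iff₀ (by positivity) (by positivity)]
  have h2 : (0 : ℝ) < 2 ^ (2 * M * N) := by positivity
  calc (∑ ω : Cfg N M, F ω) * (2 ^ (4 * M) * 2 ^ (2 * M * N))
      = (2 ^ (4 * M) * ∑ ω : Cfg N M, F ω) * 2 ^ (2 * M * N) := by ring
    _ ≤ _ := mul_le_mul_of_nonneg_right h1 h2.le

section tower
variable {K : Type*} [Field K] {V : Type*} [AddCommGroup V] [Module K V] (T : TrTower K V)

theorem finrank_add_two (N : ℕ) :
    Module.finrank K (T.VN N) ≤ Module.finrank K (T.VN (N + 2)) := by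
  have := T.fin (N + 2)
  have h1 : ∀ v ∈ T.VN N, T.c 0 v ∈ T.VN (N + 2) := T.c_mem N 0 (Nat.zero_le _)
  refine LinearMap.finrank_le_finrank_of_injective (f := (T.c 0).restrict h1) ?_
  intro v w h
  have h2 : T.c 0 v.1 = T.c 0 w.1 := congrArg Subtype.val h
  have h3 : ∀ u : V, T.k 0 (T.c 0 u) = u := fun u => by
    have := T.kc 0
    calc T.k 0 (T.c 0 u) = (T.k 0 * T.c 0) u := rfl
      _ = u := by rw [this]; rfl
  apply Subtype.ext
  rw [← h3 v.1, h2, h3]

theorem finrank_mono {m n : ℕ} (h : m ≤ n) (hp : m % 2 = n % 2) :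
    Module.finrank K (T.VN m) ≤ Module.finrank K (T.VN n) := by
  obtain ⟨j, rfl⟩ : ∃ j, n = m + 2 * j := ⟨(n - m) / 2, by omega⟩
  clear h hp
  induction j with
  | zero => exact le_rfl
  | succ j ih => exact ih.trans (finrank_add_two T _)

/-- the expected dimension -/
noncomputable def dimEx (N M : ℕ) : ℝ :=
  Ex N M fun ω => (Module.finrank K (T.VN (Wn N M (ext ω))) : ℝ)

/-- **the expected dimension does not decrease with the width** -/
theorem dimEx_mono {N M : ℕ} (hM : 0 < M) : dimEx T N M ≤ dimEx T (N + 2) M := by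
  refine Ex_mono fun ω => ?_
  have h1 : Wn N M (ext (res ω)) ≤ Wn (N + 2) M (ext ω) := by
    rw [ext_res]
    exact Wn_shf hM (ext ω)
  have h2 := Wn_par (N := N) hM (ext (res ω))
  have h3 := Wn_par (N := N + 2) hM (ext ω)
  exact_mod_cast finrank_mono T h1 (by omega)

end tower

section real
variable {V : Type*} [AddCommGroup V] [Module ℝ V] (T : TrTower ℝ V)

theorem trU_dimEx {N M : ℕ} (hM : 0 < M) : trU (T.VN N) (T.Dh N 0 (1 / 2) ^ M) = dimEx T N M := by
  rw [trace_Dh T N hM]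
  rfl

/-- **the traces of the powers do not decrease with the width** -/
theorem trU_mono {N M : ℕ} (hM : 0 < M) :
    trU (T.VN N) (T.Dh N 0 (1 / 2) ^ M) ≤ trU (T.VN (N + 2)) (T.Dh (N + 2) 0 (1 / 2) ^ M) := by
  rw [trU_dimEx T hM, trU_dimEx T hM]
  exact dimEx_mono T hM

end real

end H81Ann
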