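import Pool.Agent.Full.Perc.BK

/-!
# ANNULUS (A7b): disjoint occurrences of several events, independent slabs
-/

set_option autoImplicit false
set_option linter.unusedSectionVars false

namespace H81Ann
open Finset Full.Perc
open Pool.Agent.Helper69.RSW (P P_mono P_congr P_nonneg P_le_one P_or_le Up Dep P_union P_restrict P_false)

variable {E : Type*} [DecidableEq E]

/-- `j` disjoint sets inside `S`, each of which satisfies `Q` -/
def MM (Q : Finset E → Prop) (j : ℕ) (S : Finset E) : Prop :=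
  ∃ (I : Finset ℕ) (f : ℕ → Finset E), I.card = j ∧ (∀ i ∈ I, f i ⊆ S ∧ Q (f i)) ∧
    ∀ i ∈ I, ∀ k ∈ I, i ≠ k → Disjoint (f i) (f k)

theorem up_MM (Q : Finset E → Prop) (j : ℕ) : Up (MM Q j) := by
  rintro S T hST ⟨I, f, h1, h2, h3⟩
  exact ⟨I, f, h1, fun i hi => ⟨(h2 i hi).1.trans hST, (h2 i hi).2⟩, h3⟩

theorem MM_mono {Q R : Finset E → Prop} (h : ∀ S, Q S → R S) {j : ℕ} {S : Finset E} (hS : MM Q j S) :
    MM R j S := by
  obtain ⟨I, f, h1, h2, h3⟩ := hS
  exact ⟨I, f, h1, fun i hi => ⟨(h2 i hi).1, h _ (h2 i hi).2⟩, h3⟩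

theorem MM_sub {Q : Finset E → Prop} {j : ℕ} {S G : Finset E} (h : MM Q j S)
    (hG : ∀ U ⊆ S, Q U → Q (U ∩ G)) : MM Q j (S ∩ G) := by
  obtain ⟨I, f, h1, h2, h3⟩ := h
  refine ⟨I, fun i => f i ∩ G, h1, fun i hi => ⟨inter_subset_inter_right (h2 i hi).1,
    hG _ (h2 i hi).1 (h2 i hi).2⟩, fun i hi k hk hik => ?_⟩
  exact disjoint_of_subset_left inter_subset_left (disjoint_of_subset_right inter_subset_left (h3 i hi k hk hik))

theorem dis_MM {Q : Finset E → Prop} {j : ℕ} {S : Finset E} (h : MM Q (j + 1) S) : Dis Q (MM Q j) S := by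
  classical
  obtain ⟨I, f, h1, h2, h3⟩ := h
  obtain ⟨a, ha⟩ : I.Nonempty := card_pos.1 (by omega)
  refine ⟨f a, (I.erase a).biUnion f, (h2 a ha).1, ?_, ?_, (h2 a ha).2, ?_⟩
  · intro x hx
    obtain ⟨i, hi, hxi⟩ := mem_biUnion.1 hx
    exact (h2 i (mem_of_mem_erase hi)).1 hxi
  · rw [disjoint_biUnion_right]
    intro i hi
    exact h3 a ha i (mem_of_mem_erase hi) (ne_of_mem_erase hi).symm
  · refine ⟨I.erase a, f, by rw [card_erase_of_mem ha, h1]; rfl, fun i hi => ?_, fun i hi k hk hik => ?_⟩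
    · exact ⟨subset_biUnion_of_mem f hi, (h2 i (mem_of_mem_erase hi)).2⟩
    · exact h3 i (mem_of_mem_erase hi) k (mem_of_mem_erase hk) hik

theorem P_MM_le (F : Finset E) {Q : Finset E → Prop} (hQ : Up Q) {θ : ℝ} (hθ : P F Q ≤ θ) (j : ℕ) :
    P F (MM Q j) ≤ θ ^ j := by
  have h0 : 0 ≤ θ := (P_nonneg F Q).trans hθ
  induction j with
  | zero => rw [pow_zero]; exact P_le_one F _
  | succ j ih =>
    calc P F (MM Q (j + 1)) ≤ P F (Dis Q (MM Q j)) := P_mono fun S _ h => dis_MM h
      _ ≤ P F Q * P F (MM Q j) := bk F hQ (up_MM Q j)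
      _ ≤ θ * θ ^ j := mul_le_mul hθ ih (P_nonneg _ _) h0
      _ = θ ^ (j + 1) := by rw [pow_succ, mul_comm]

theorem split_MM {Q R : Finset E → Prop} {j : ℕ} {S : Finset E} (h : MM (fun S => Q S ∨ R S) j S) :
    ∃ i ∈ range (j + 1), Dis (MM Q i) (MM R (j - i)) S := by
  classical
  obtain ⟨I, f, h1, h2, h3⟩ := h
  set I1 := I.filter fun i => Q (f i) with hI1
  set I2 := I.filter fun i => ¬ Q (f i) with hI2
  have hc : I1.card + I2.card = j := by
    rw [hI1, hI2, card_filter_add_card_filter_not, h1]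
  refine ⟨I1.card, mem_range.2 (by omega), I1.biUnion f, I2.biUnion f, ?_, ?_, ?_, ?_, ?_⟩
  · intro x hx
    obtain ⟨i, hi, hxi⟩ := mem_biUnion.1 hx
    exact (h2 i (mem_filter.1 hi).1).1 hxi
  · intro x hx
    obtain ⟨i, hi, hxi⟩ := mem_biUnion.1 hx
    exact (h2 i (mem_filter.1 hi).1).1 hxi
  · rw [disjoint_biUnion_left]
    intro i hi
    rw [disjoint_biUnion_right]
    intro k hk
    refine h3 i (mem_filter.1 hi).1 k (mem_filter.1 hk).1 ?_
    rintro rfl
    exact (mem_filter.1 hk).2 (mem_filter.1 hi).2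
  · refine ⟨I1, f, rfl, fun i hi => ⟨subset_biUnion_of_mem f hi, (mem_filter.1 hi).2⟩, fun i hi k hk hik => ?_⟩
    exact h3 i (mem_filter.1 hi).1 k (mem_filter.1 hk).1 hik
  · refine ⟨I2, f, by omega, fun i hi => ⟨subset_biUnion_of_mem f hi, ?_⟩, fun i hi k hk hik => ?_⟩
    · exact (h2 i (mem_filter.1 hi).1).2.resolve_left (mem_filter.1 hi).2
    · exact h3 i (mem_filter.1 hi).1 k (mem_filter.1 hk).1 hik

theorem P_exists_le {ι : Type*} (F : Finset E) (I : Finset ι) (A : ι → Finset E → Prop) :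
    P F (fun S => ∃ i ∈ I, A i S) ≤ ∑ i ∈ I, P F (A i) := by
  classical
  induction I using Finset.induction_on with
  | empty =>
    rw [sum_empty, ← P_false F]
    exact P_mono fun S _ h => by simp at h
  | insert a I ha ih =>
    rw [sum_insert ha]
    refine le_trans (P_mono (B := fun S => A a S ∨ ∃ i ∈ I, A i S) ?_) ((P_or_le F _ _).trans ?_)
    · rintro S _ ⟨i, hi, h⟩
      rcases mem_insert.1 hi with rfl | hi
      · exact Or.inl h
      · exact Or.inr ⟨i, hi, h⟩
    · linarith

/-- **several events with multiplicities** -/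
theorem P_multi (F : Finset E) {A : ℕ → Finset E → Prop} (hA : ∀ b, Up (A b)) {θ : ℝ} (h0 : 0 ≤ θ) :
    ∀ n : ℕ, (∀ b < n, P F (A b) ≤ θ) → ∀ j : ℕ, P F (MM (fun S => ∃ b < n, A b S) j) ≤ ((j : ℝ) + 1) ^ n * θ ^ j := by
  intro n
  induction n with
  | zero =>
    intro _ j
    rcases Nat.eq_zero_or_pos j with rfl | hj
    · simp only [pow_zero, mul_one]
      exact P_le_one F _
    · have : P F (MM (fun S => ∃ b < 0, A b S) j) ≤ P F (fun _ => False) := by
        refine P_mono ?_
        rintro S _ ⟨I, f, h1, h2, -⟩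
        obtain ⟨a, ha⟩ : I.Nonempty := card_pos.1 (by omega)
        obtain ⟨b, hb, -⟩ := (h2 a ha).2
        omega
      rw [P_false] at this
      exact this.trans (by positivity)
  | succ n ih =>
    intro hθ j
    have ih' := ih fun b hb => hθ b (by omega)
    have hUn : Up (fun S : Finset E => ∃ b < n, A b S) := by
      rintro S T hST ⟨b, hb, h⟩
      exact ⟨b, hb, hA b S T hST h⟩
    calc P F (MM (fun S => ∃ b < n + 1, A b S) j)
        ≤ P F (fun S => ∃ i ∈ range (j + 1), Dis (MM (fun S => ∃ b < n, A b S) i) (MM (A n) (j - i)) S) := by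
          refine P_mono fun S _ h => split_MM (MM_mono ?_ h)
          rintro T ⟨b, hb, hb'⟩
          rcases Nat.lt_succ_iff_lt_or_eq.1 hb with h4 | h4
          · exact Or.inl ⟨b, h4, hb'⟩
          · rw [h4] at hb'
            exact Or.inr hb'
      _ ≤ ∑ i ∈ range (j + 1), P F (Dis (MM (fun S => ∃ b < n, A b S) i) (MM (A n) (j - i))) :=
          P_exists_le F _ _
      _ ≤ ∑ i ∈ range (j + 1), ((j : ℝ) + 1) ^ n * θ ^ j := by
          refine sum_le_sum fun i hi => ?_
          rw [mem_range] at hi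
          refine (bk F (up_MM _ _) (up_MM _ _)).trans ?_
          have e1 := ih' i
          have e2 := P_MM_le F (hA n) (hθ n (by omega)) (j - i)
          have e3 : ((i : ℝ) + 1) ^ n ≤ ((j : ℝ) + 1) ^ n := by
            apply pow_le_pow_left₀ (by positivity)
            have : (i : ℝ) ≤ j := by exact_mod_cast (by omega : i ≤ j)
            linarith
          calc P F (MM (fun S => ∃ b < n, A b S) i) * P F (MM (A n) (j - i))
              ≤ (((i : ℝ) + 1) ^ n * θ ^ i) * θ ^ (j - i) :=
                mul_le_mul e1 e2 (P_nonneg _ _) (by positivity)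
            _ = ((i : ℝ) + 1) ^ n * θ ^ j := by
                rw [mul_assoc, ← pow_add, Nat.add_sub_cancel' (by omega)]
            _ ≤ ((j : ℝ) + 1) ^ n * θ ^ j := mul_le_mul_of_nonneg_right e3 (by positivity)
      _ = ((j : ℝ) + 1) ^ (n + 1) * θ ^ j := by
          rw [sum_const, card_range, nsmul_eq_mul, pow_succ]
          push_cast
          ring

/-- **independent slabs** -/
theorem P_slabs {F : ℕ → Finset E} {A : ℕ → Finset E → Prop} {q : ℝ} (hq : 0 ≤ q) : ∀ (L : ℕ) (G : Finset E),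
    (∀ s < L, F s ⊆ G) → (∀ s < L, ∀ t < L, s ≠ t → Disjoint (F s) (F t)) → (∀ s < L, P (F s) (A s) ≤ q) →
    P G (fun S => ∀ s < L, A s (S ∩ F s)) ≤ q ^ L := by
  classical
  intro L
  induction L with
  | zero =>
    intro G _ _ _
    rw [pow_zero]
    exact P_le_one _ _
  | succ L ih =>
    intro G h1 h2 h3
    set F' : Finset E := (range L).biUnion F with hF'
    have hd : Disjoint F' (F L) := by
      rw [hF', disjoint_biUnion_left]
      intro s hs
      rw [mem_range] at hs
      exact h2 s (by omega) L (by omega) (by omega)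
    have hsub : F' ∪ F L ⊆ G := by
      refine union_subset ?_ (h1 L (by omega))
      rw [hF', biUnion_subset]
      intro s hs
      rw [mem_range] at hs
      exact h1 s (by omega)
    have hdep1 : Dep F' (fun S => ∀ s < L, A s (S ∩ F s)) := by
      intro S
      have e : ∀ s < L, S ∩ F' ∩ F s = S ∩ F s := by
        intro s hs
        rw [inter_assoc]
        congr 1
        rw [inter_eq_right, hF']
        exact subset_biUnion_of_mem F (mem_range.2 hs)
      constructor
      · intro h s hs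
        rw [e s hs]
        exact h s hs
      · intro h s hs
        rw [← e s hs]
        exact h s hs
    have hdep2 : Dep (F L) (fun S => A L (S ∩ F L)) := by
      intro S
      show A L (S ∩ F L) ↔ A L (S ∩ F L ∩ F L)
      rw [inter_assoc, inter_self]
    have hA2 : P (F L) (fun S => A L (S ∩ F L)) = P (F L) (A L) := by
      refine P_congr fun S hS => ?_
      rw [inter_eq_left.2 hS]
    calc P G (fun S => ∀ s < L + 1, A s (S ∩ F s))
        = P G (fun S => (∀ s < L, A s (S ∩ F s)) ∧ A L (S ∩ F L)) := by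
          refine P_congr fun S _ => ?_
          constructor
          · intro h
            exact ⟨fun s hs => h s (by omega), h L (by omega)⟩
          · rintro ⟨h4, h5⟩ s hs
            rcases Nat.lt_succ_iff_lt_or_eq.1 hs with hs | rfl
            · exact h4 s hs
            · exact h5
      _ = P (F' ∪ F L) (fun S => (∀ s < L, A s (S ∩ F s)) ∧ A L (S ∩ F L)) :=
          P_restrict hsub ((hdep1.mono subset_union_left).and (hdep2.mono subset_union_right))
      _ = P F' (fun S => ∀ s < L, A s (S ∩ F s)) * P (F L) (fun S => A L (S ∩ F L)) := P_union hd hdep1 hdep2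
      _ ≤ q ^ L * q := by
          rw [hA2]
          refine mul_le_mul (ih F' ?_ (fun s hs t ht => h2 s (by omega) t (by omega))
            (fun s hs => h3 s (by omega))) (h3 L (by omega)) (P_nonneg _ _) (by positivity)
          intro s hs
          rw [hF']
          exact subset_biUnion_of_mem F (mem_range.2 hs)
      _ = q ^ (L + 1) := (pow_succ q L).symm

/-- expectations from tail bounds -/
theorem Ex_le_tail (F : Finset E) (D : Finset E → ℕ) {g a : ℕ → ℝ} (hg : ∀ j, 0 ≤ g j) {K : ℕ}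
    (hK : ∀ S ⊆ F, D S ≤ K) (ha : ∀ j, P F (fun S => j ≤ D S) ≤ a j) :
    Full.Perc.Ex F (fun S => g (D S)) ≤ ∑ j ∈ range (K + 1), g j * a j := by
  classical
  have h1 : ∀ S ⊆ F, g (D S) ≤ ∑ j ∈ range (K + 1), g j * (if j ≤ D S then 1 else 0) := by
    intro S hS
    have h2 : g (D S) = g (D S) * (if D S ≤ D S then 1 else 0) := by simp
    refine h2.le.trans (single_le_sum (f := fun j => g j * (if j ≤ D S then (1 : ℝ) else 0)) ?_
      (mem_range.2 (by have := hK S hS; omega)))
    intro j _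
    have := hg j
    split_ifs <;> simp [this]
  refine (Full.Perc.Ex_mono h1).trans ?_
  rw [Full.Perc.Ex_sum]
  refine sum_le_sum fun j _ => ?_
  have h3 := Full.Perc.Ex_mul F (g j) (fun S => if j ≤ D S then (1 : ℝ) else 0)
  have h4 := Full.Perc.Ex_ite F (fun S => j ≤ D S)
  have h5 : Full.Perc.Ex F (fun S => if j ≤ D S then (1 : ℝ) else 0) = P F (fun S => j ≤ D S) := by
    rw [← h4]
    refine Full.Perc.Ex_congr fun S _ => ?_
    by_cases h : j ≤ D S <;> simp [h]
  rw [h3, h5]
  exact mul_le_mul_of_nonneg_left (ha j) (hg j)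

end H81Ann
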