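import Pool.Agent.Helper81.Ann.MonoTr
import Pool.Agent.Rect.Alg.Inst

/-!
# ANNULUS: the standard modules as a tower with traces
-/

set_option autoImplicit false

namespace H81Ann
open Ann32 Rect.Alg RectAlg
open Finset hiding ext

variable (K : Type*) [Field K]

/-- the tower of the standard modules with `l` defects -/
noncomputable def patTr (l : ℕ) : TrTower K (Pat →₀ K) where
  toTower := patSys.tower K
  far1 i j h := by
    rw [PatSys.tower_k_lin, PatSys.tower_c_lin, PatSys.tower_c_lin, lin_mul, lin_mul]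
    refine lin_congr K fun f => ?_
    rw [Option.bind_some]
    show Pat.k i (Pat.c (j + 2) f) = (Pat.k i f).bind fun f => some (Pat.c j f)
    rw [Pat.k_c_gt h]
    cases Pat.k i f <;> rfl
  far2 i j h := by
    rw [PatSys.tower_k_lin, PatSys.tower_k_lin, PatSys.tower_c_lin, lin_mul, lin_mul]
    refine lin_congr K fun f => ?_
    rw [Option.bind_some]
    show Pat.k (j + 2) (Pat.c i f) = (Pat.k j f).bind fun f => some (Pat.c i f)
    rw [Pat.k_c_lt h]
    cases Pat.k j f <;> rfl
  VN N := patSys.W K N l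
  fin N := inferInstance
  c_mem N i h v hv := patSys.c_mem K h hv
  k_mem N i h v hv := patSys.k_mem K h hv

theorem patTr_VN (l N : ℕ) : (patTr K l).VN N = patSys.W K N l := rfl

theorem patTr_Dh (l N k : ℕ) (p : K) : (patTr K l).Dh N k p = (patSys.tower K).Dh N k p := rfl

theorem finrank_VN (l N : ℕ) : Module.finrank K ((patTr K l).VN N) = (Pat.PN N l).card := by
  rw [patTr_VN]
  exact patSys.finrank_W K N l

/-- trace on the standard module -/
noncomputable def trW (N M l : ℕ) : ℝ := LinearMap.trace ℝ (patSys.W ℝ N l) (patSys.DW ℝ N l (1 / 2) ^ M)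

theorem restrict_pow' {V : Type*} [AddCommGroup V] [Module K V] {U : Submodule K V} {X : Module.End K V}
    (h : ∀ v ∈ U, X v ∈ U) (M : ℕ) : ∃ h' : ∀ v ∈ U, (X ^ M) v ∈ U, (X ^ M).restrict h' = (X.restrict h) ^ M := by
  induction M with
  | zero =>
    refine ⟨fun v hv => hv, ?_⟩
    rfl
  | succ M ih =>
    obtain ⟨h', e⟩ := ih
    refine ⟨fun v hv => by
      rw [pow_succ, Module.End.mul_apply]
      exact h' _ (h v hv), ?_⟩
    rw [pow_succ (X.restrict h) M, ← e]
    refine LinearMap.ext fun v => Subtype.ext ?_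
    rw [Module.End.mul_apply]
    show (X ^ (M + 1)) v.1 = (X ^ M) (X v.1)
    rw [pow_succ X M, Module.End.mul_apply]

theorem trU_pow {V : Type*} [AddCommGroup V] [Module K V] {U : Submodule K V} {X : Module.End K V}
    (h : ∀ v ∈ U, X v ∈ U) (M : ℕ) : trU U (X ^ M) = LinearMap.trace K U (X.restrict h ^ M) := by
  obtain ⟨h', e⟩ := restrict_pow' K h M
  rw [trU_of h', e]

/-- **the trace of the transfer matrix is the expected number of patterns on the non contractible loops** -/
theorem trW_eq (N l : ℕ) {M : ℕ} (hM : 0 < M) :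
    trW N M l = Ex N M fun ω => ((Pat.PN (Wn N M (ext ω)) l).card : ℝ) := by
  have h1 := trU_dimEx (patTr ℝ l) (N := N) hM
  rw [patTr_VN, patTr_Dh, trU_pow ℝ (fun v hv => patSys.Dh_mem ℝ N l (1 / 2) hv)] at h1
  unfold trW
  refine h1.trans ?_
  unfold dimEx
  congr 1
  funext ω
  rw [finrank_VN]

theorem trW_mono (N l : ℕ) {M : ℕ} (hM : 0 < M) : trW N M l ≤ trW (N + 2) M l := by
  have h1 := trU_dimEx (patTr ℝ l) (N := N) hM
  have h2 := trU_dimEx (patTr ℝ l) (N := N + 2) hM
  rw [patTr_VN, patTr_Dh, trU_pow ℝ (fun v hv => patSys.Dh_mem ℝ N l (1 / 2) hv)] at h1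
  rw [patTr_VN, patTr_Dh, trU_pow ℝ (fun v hv => patSys.Dh_mem ℝ (N + 2) l (1 / 2) hv)] at h2
  have h3 := dimEx_mono (patTr ℝ l) (N := N) hM
  rw [← h1, ← h2] at h3
  exact h3

end H81Ann
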